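import Mathlib

/-!
# Forcing axioms and Wetzel families: definitions
-/

namespace Pool.Agent.Wetzel

open Cardinal

/-- `D` is dense in the partial order `P` (forcing convention: smaller is stronger). -/
def IsDense {P : Type} [PartialOrder P] (D : Set P) : Prop :=
  ∀ p : P, ∃ d ∈ D, d ≤ p

/-- Two conditions are compatible: they have a common extension. -/
def Compatible {P : Type} [PartialOrder P] (p q : P) : Prop :=
  ∃ t : P, t ≤ p ∧ t ≤ q

/-- `G` is a filter on `P`: nonempty, upward closed, any two elements have a common extension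
in `G`. -/
def IsFilterOn {P : Type} [PartialOrder P] (G : Set P) : Prop :=
  G.Nonempty ∧ (∀ p ∈ G, ∀ q, p ≤ q → q ∈ G) ∧ ∀ p ∈ G, ∀ q ∈ G, ∃ t ∈ G, t ≤ p ∧ t ≤ q

/-- `C` is a closed unbounded family of countable subsets of `X`. -/
def IsClub {X : Type} (C : Set (Set X)) : Prop :=
  (∀ M ∈ C, M.Countable) ∧
  (∀ A : Set X, A.Countable → ∃ M ∈ C, A ⊆ M) ∧
  (∀ M : ℕ → Set X, Monotone M → (∀ n, M n ∈ C) → (⋃ n, M n) ∈ C)

/-- `q` is an `(M, P)`-generic condition: for every dense set `D` of `P` that belongs to `M`,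
the set `D ∩ M` is predense below `q`. Here `M` is a set of conditions and of subsets
of `P`. -/
def IsGenericCondition {P : Type} [PartialOrder P] (M : Set (P ⊕ Set P)) (q : P) : Prop :=
  ∀ D : Set P, Sum.inr D ∈ M → IsDense D →
    ∀ r ≤ q, ∃ d ∈ D, Sum.inl d ∈ M ∧ Compatible r d

/-- `P` is proper: for a club of countable `M ⊆ P ∪ 𝒫(P)`, every condition in `M` has an
`(M, P)`-generic extension. -/
def IsProper (P : Type) [PartialOrder P] : Prop :=
  ∃ C : Set (Set (P ⊕ Set P)), IsClub C ∧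
    ∀ M ∈ C, ∀ p : P, Sum.inl p ∈ M → ∃ q ≤ p, IsGenericCondition M q

/-- The Proper Forcing Axiom. -/
def PFA : Prop :=
  ∀ (P : Type) [PartialOrder P] [Nonempty P], IsProper P →
    ∀ 𝒟 : Set (Set P), #𝒟 ≤ ℵ₁ → (∀ D ∈ 𝒟, IsDense D) →
      ∃ G : Set P, IsFilterOn G ∧ ∀ D ∈ 𝒟, (G ∩ D).Nonempty

/-- The countable chain condition: every antichain is countable. -/
def IsCCC (P : Type) [PartialOrder P] : Prop :=
  ∀ A : Set P, (∀ a ∈ A, ∀ b ∈ A, a ≠ b → ¬ Compatible a b) → A.Countable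

/-- Martin's axiom. -/
def MA : Prop :=
  ∀ (P : Type) [PartialOrder P] [Nonempty P], IsCCC P →
    ∀ 𝒟 : Set (Set P), #𝒟 < 𝔠 → (∀ D ∈ 𝒟, IsDense D) →
      ∃ G : Set P, IsFilterOn G ∧ ∀ D ∈ 𝒟, (G ∩ D).Nonempty

/-- A Wetzel family: a family of entire functions which at every point takes fewer values than
it has members. -/
def IsWetzel (F : Set (ℂ → ℂ)) : Prop :=
  (∀ f ∈ F, Differentiable ℂ f) ∧ ∀ z : ℂ, #((fun f : ℂ → ℂ => f z) '' F) < #F

end Pool.Agent.Wetzel
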