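import Mathlib
import Pool.Agent.Wetzel.Defs

/-!
# Finitary closure operators and a criterion for properness
-/

namespace Pool.Agent.Wetzel

open Cardinal

/-- The smallest set containing `A` and closed under the rule `R`, which from a finite list of
elements produces a set of new elements. -/
inductive Cl {Y : Type} (R : List Y → Set Y) (A : Set Y) : Y → Prop
  | base {y : Y} : y ∈ A → Cl R A y
  | step {l : List Y} {y : Y} : (∀ x ∈ l, Cl R A x) → y ∈ R l → Cl R A y

namespace Cl

variable {Y : Type} {R : List Y → Set Y} {A B : Set Y}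

/-- The closure as a set. -/
def cl (R : List Y → Set Y) (A : Set Y) : Set Y := {y | Cl R A y}

lemma subset_cl : A ⊆ cl R A := fun _ h => Cl.base h

lemma cl_closed {l : List Y} (h : ∀ x ∈ l, x ∈ cl R A) : R l ⊆ cl R A :=
  fun _ hy => Cl.step h hy

lemma cl_minimal {S : Set Y} (hA : A ⊆ S) (hS : ∀ l : List Y, (∀ x ∈ l, x ∈ S) → R l ⊆ S) :
    cl R A ⊆ S := by
  intro y hy
  induction hy with
  | base h => exact hA h
  | step _ hy ih => exact hS _ ih hy

lemma cl_mono (h : A ⊆ B) : cl R A ⊆ cl R B :=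
  cl_minimal (h.trans subset_cl) (fun _ hl => cl_closed hl)

lemma cl_subset_cl (h : A ⊆ cl R B) : cl R A ⊆ cl R B :=
  cl_minimal h (fun _ hl => cl_closed hl)

/-- Stages of the closure. -/
def stage (R : List Y → Set Y) (A : Set Y) : ℕ → Set Y
  | 0 => A
  | n + 1 => stage R A n ∪ ⋃ l ∈ {l : List Y | ∀ x ∈ l, x ∈ stage R A n}, R l

lemma stage_mono (R : List Y → Set Y) (A : Set Y) : Monotone (stage R A) :=
  monotone_nat_of_le_succ (fun _ => Set.subset_union_left)

lemma countable_lists {S : Set Y} (hS : S.Countable) : {l : List Y | ∀ x ∈ l, x ∈ S}.Countable := by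
  have : Countable S := hS.to_subtype
  refine (Set.countable_range (List.map (Subtype.val : S → Y))).mono ?_
  intro l hl
  refine ⟨l.attach.map (fun x => ⟨x.1, hl x.1 x.2⟩), ?_⟩
  rw [List.map_map]
  exact List.attach_map_subtype_val l

lemma stage_countable (hR : ∀ l, (R l).Countable) (hA : A.Countable) (n : ℕ) :
    (stage R A n).Countable := by
  induction n with
  | zero => exact hA
  | succ n ih => exact ih.union ((countable_lists ih).biUnion (fun l _ => hR l))

lemma exists_stage_of_list {l : List Y} (h : ∀ x ∈ l, ∃ n, x ∈ stage R A n) :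
    ∃ n, ∀ x ∈ l, x ∈ stage R A n := by
  induction l with
  | nil => exact ⟨0, by simp⟩
  | cons a l ih =>
    obtain ⟨n, hn⟩ := ih (fun x hx => h x (List.mem_cons_of_mem _ hx))
    obtain ⟨m, hm⟩ := h a (List.mem_cons_self)
    refine ⟨max n m, ?_⟩
    intro x hx
    rcases List.mem_cons.1 hx with rfl | hx
    · exact stage_mono R A (le_max_right _ _) hm
    · exact stage_mono R A (le_max_left _ _) (hn x hx)

lemma cl_eq_iUnion_stage : cl R A = ⋃ n, stage R A n := by
  apply Set.Subset.antisymm
  · refine cl_minimal (Set.subset_iUnion (stage R A) 0) ?_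
    intro l hl y hy
    obtain ⟨n, hn⟩ := exists_stage_of_list (fun x hx => Set.mem_iUnion.1 (hl x hx))
    exact Set.mem_iUnion.2 ⟨n + 1, Or.inr (Set.mem_biUnion hn hy)⟩
  · refine Set.iUnion_subset (fun n => ?_)
    induction n with
    | zero => exact subset_cl
    | succ n ih =>
      refine Set.union_subset ih (Set.iUnion₂_subset (fun l hl => ?_))
      exact cl_closed (fun x hx => ih (hl x hx))

lemma cl_countable (hR : ∀ l, (R l).Countable) (hA : A.Countable) : (cl R A).Countable := by
  rw [cl_eq_iUnion_stage]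
  exact Set.countable_iUnion (fun n => stage_countable hR hA n)

/-- Continuity of the closure along directed unions. -/
lemma mem_cl_iUnion {ι : Type} [Nonempty ι] {A : ι → Set Y} (hdir : Directed (· ⊆ ·) A) {y : Y}
    (hy : y ∈ cl R (⋃ i, A i)) : ∃ i, y ∈ cl R (A i) := by
  induction hy with
  | base h =>
    obtain ⟨i, hi⟩ := Set.mem_iUnion.1 h
    exact ⟨i, Cl.base hi⟩
  | @step l y hl hy ih =>
    have key : ∃ i, ∀ x ∈ l, x ∈ cl R (A i) := by
      clear hy
      induction l with
      | nil => exact ⟨Classical.arbitrary ι, by simp⟩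
      | cons a l ihl =>
        obtain ⟨i, hi⟩ := ihl (fun x hx => hl x (List.mem_cons_of_mem _ hx))
          (fun x hx => ih x (List.mem_cons_of_mem _ hx))
        obtain ⟨j, hj⟩ := ih a (List.mem_cons_self)
        obtain ⟨k, hik, hjk⟩ := hdir i j
        refine ⟨k, ?_⟩
        intro x hx
        rcases List.mem_cons.1 hx with rfl | hx
        · exact cl_mono hjk hj
        · exact cl_mono hik (hi x hx)
    obtain ⟨i, hi⟩ := key
    exact ⟨i, Cl.step hi hy⟩

end Cl

open Cl

/-- A criterion for properness: it suffices to find generic conditions for all countable sets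
(of conditions, subsets of `P`, and elements of an auxiliary type) closed under a countably
branching finitary closure rule. -/
theorem isProper_of_closure {P : Type} [PartialOrder P] (X : Type)
    (R : List ((P ⊕ Set P) ⊕ X) → Set ((P ⊕ Set P) ⊕ X)) (hR : ∀ l, (R l).Countable)
    (h : ∀ M : Set ((P ⊕ Set P) ⊕ X), M.Countable → (∀ l, (∀ x ∈ l, x ∈ M) → R l ⊆ M) →
      ∀ p : P, Sum.inl (Sum.inl p) ∈ M →
        ∃ q ≤ p, IsGenericCondition (Sum.inl ⁻¹' M : Set (P ⊕ Set P)) q) :
    IsProper P := by
  let op : Set (P ⊕ Set P) → Set (P ⊕ Set P) := fun M' => Sum.inl ⁻¹' (cl R (Sum.inl '' M'))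
  have hop_sub : ∀ M', M' ⊆ op M' := fun M' x hx => subset_cl (Set.mem_image_of_mem _ hx)
  have hop_countable : ∀ M', M'.Countable → (op M').Countable := by
    intro M' hM'
    exact (cl_countable hR (hM'.image _)).preimage Sum.inl_injective
  have hcl_op : ∀ M', cl R (Sum.inl '' op M') = cl R (Sum.inl '' M') := by
    intro M'
    apply Set.Subset.antisymm
    · apply cl_subset_cl
      rintro _ ⟨x, hx, rfl⟩
      exact hx
    · exact cl_mono (Set.image_mono (hop_sub M'))
  refine ⟨{M' | M'.Countable ∧ op M' = M'}, ⟨?_, ?_, ?_⟩, ?_⟩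
  · exact fun M hM => hM.1
  · intro A hA
    refine ⟨op A, ⟨hop_countable A hA, ?_⟩, hop_sub A⟩
    show Sum.inl ⁻¹' (cl R (Sum.inl '' op A)) = op A
    rw [hcl_op]
  · intro M hmono hM
    refine ⟨Set.countable_iUnion (fun n => (hM n).1), ?_⟩
    apply Set.Subset.antisymm
    · intro x hx
      have hx' : (Sum.inl x : (P ⊕ Set P) ⊕ X) ∈ cl R (⋃ n, Sum.inl '' M n) := by
        rw [← Set.image_iUnion]; exact hx
      obtain ⟨n, hn⟩ := mem_cl_iUnion
        (A := fun n => (Sum.inl '' M n : Set ((P ⊕ Set P) ⊕ X)))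
        (Monotone.directed_le (fun a b hab => Set.image_mono (hmono hab))) hx'
      refine Set.mem_iUnion.2 ⟨n, ?_⟩
      rw [← (hM n).2]
      exact hn
    · exact hop_sub _
  · rintro M' ⟨hM'c, hM'⟩ p hp
    obtain ⟨q, hq, hgen⟩ := h (cl R (Sum.inl '' M')) (cl_countable hR (hM'c.image _))
      (fun l hl => cl_closed hl) p (subset_cl (Set.mem_image_of_mem _ hp))
    refine ⟨q, hq, ?_⟩
    have : (Sum.inl ⁻¹' cl R (Sum.inl '' M') : Set (P ⊕ Set P)) = M' := hM'
    rw [this] at hgen
    exact hgen

/-- ccc partial orders are proper. -/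
theorem IsCCC.isProper {P : Type} [PartialOrder P] (hP : IsCCC P) : IsProper P := by
  classical
  -- for each dense `D` pick a maximal antichain inside `D`
  have hmax : ∀ D : Set P, IsDense D → ∃ A : Set P, A ⊆ D ∧ A.Countable ∧
      ∀ r : P, ∃ a ∈ A, Compatible r a := by
    intro D hD
    obtain ⟨A, hA⟩ := zorn_subset
      {A : Set P | A ⊆ D ∧ ∀ a ∈ A, ∀ b ∈ A, a ≠ b → ¬ Compatible a b} (by
        intro c hc hchain
        refine ⟨⋃₀ c, ⟨?_, ?_⟩, fun s hs => Set.subset_sUnion_of_mem hs⟩
        · exact Set.sUnion_subset (fun s hs => (hc hs).1)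
        · rintro a ⟨s, hs, has⟩ b ⟨t, ht, hbt⟩ hab
          rcases hchain.total hs ht with hst | hts
          · exact (hc ht).2 a (hst has) b hbt hab
          · exact (hc hs).2 a has b (hts hbt) hab)
    refine ⟨A, hA.prop.1, hP A hA.prop.2, ?_⟩
    intro r
    obtain ⟨d, hdD, hdr⟩ := hD r
    by_contra hcon
    push Not at hcon
    have hdA : d ∉ A := fun h => hcon d h ⟨d, hdr, le_refl d⟩
    have hins : insert d A ∈ {A : Set P | A ⊆ D ∧ ∀ a ∈ A, ∀ b ∈ A, a ≠ b → ¬ Compatible a b} := by
      refine ⟨Set.insert_subset hdD hA.prop.1, ?_⟩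
      rintro a (rfl | ha) b (rfl | hb) hab
      · exact absurd rfl hab
      · rintro ⟨t, ht1, ht2⟩
        exact hcon b hb ⟨t, ht1.trans hdr, ht2⟩
      · rintro ⟨t, ht1, ht2⟩
        exact hcon a ha ⟨t, ht2.trans hdr, ht1⟩
      · exact hA.prop.2 a ha b hb hab
    exact hdA (hA.le_of_ge hins (Set.subset_insert d A) (Set.mem_insert d A))
  choose! A hAD hAc hA using hmax
  refine isProper_of_closure Empty
    (fun l => match l with
      | [Sum.inl (Sum.inr D)] => if IsDense D then (fun a => Sum.inl (Sum.inl a)) '' (A D) else ∅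
      | _ => ∅) ?_ ?_
  · intro l
    split
    · split_ifs with h
      · exact (hAc _ h).image _
      · exact Set.countable_empty
    · exact Set.countable_empty
  · intro M _ hM p _
    refine ⟨p, le_refl p, ?_⟩
    intro D hDM hD r _
    obtain ⟨a, ha, hra⟩ := hA D hD r
    refine ⟨a, hAD D hD ha, ?_, hra⟩
    have := hM [Sum.inl (Sum.inr D)] (by simpa using hDM)
    apply this
    simp only [if_pos hD]
    exact Set.mem_image_of_mem _ ha

end Pool.Agent.Wetzel
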