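import Mathlib

/-!
# Measurable finitary functions on the reals and Skolem functions for closed sets
-/

namespace Pool.Agent.Wetzel

open Set

/-- A finitary function (a function of a finite list of reals) that is Borel in each arity. -/
def Meas (g : List ℝ → ℝ) : Prop :=
  ∀ m : ℕ, Measurable (fun v : Fin m → ℝ => g (List.ofFn v))

/-- The type of Borel finitary functions. -/
abbrev U : Type := {g : List ℝ → ℝ // Meas g}

namespace U

/-- The `i`-th coordinate function (`0` if the list is too short). -/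
def proj (i : ℕ) : U := ⟨fun l => l.getD i 0, by
  intro m
  by_cases h : i < m
  · have : (fun v : Fin m → ℝ => (List.ofFn v).getD i 0) = fun v => v ⟨i, h⟩ := by
      funext v
      rw [List.getD_eq_getElem _ _ (by simpa using h)]
      simp
    rw [this]
    exact measurable_pi_apply _
  · have : (fun v : Fin m → ℝ => (List.ofFn v).getD i 0) = fun _ => 0 := by
      funext v
      rw [List.getD_eq_default _ _ (by simpa using h)]
    rw [this]
    exact measurable_const⟩

/-- Constant functions. -/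
def const (c : ℝ) : U := ⟨fun _ => c, fun _ => measurable_const⟩

/-- Composition. -/
def comp (g : U) (hs : List U) : U := ⟨fun l => g.1 (hs.map (fun h => h.1 l)), by
  intro m
  have : (fun v : Fin m → ℝ => g.1 (hs.map (fun h => h.1 (List.ofFn v)))) =
      fun v => g.1 (List.ofFn (fun i : Fin hs.length => (hs.get i).1 (List.ofFn v))) := by
    funext v
    refine congrArg g.1 ?_
    apply List.ext_getElem <;> simp
  rw [this]
  exact (g.2 hs.length).comp (measurable_pi_lambda _ (fun i => (hs.get i).2 m))⟩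

end U

/-- The Skolem function of a set `K` of tuples: given the coordinates in `J`, the least possible
value of the `i`-th coordinate. -/
noncomputable def skolFun {m : ℕ} (K : Set (Fin m → ℝ)) (J : Finset (Fin m)) (i : Fin m)
    (l : List ℝ) : ℝ :=
  sInf {t | ∃ x ∈ K, (∀ j ∈ J, x j = l.getD j 0) ∧ x i = t}

lemma isClosed_exists {m : ℕ} {C : Set (Fin m → ℝ)} (hC : IsCompact C) (J : Finset (Fin m)) :
    IsClosed {v : Fin m → ℝ | ∃ x ∈ C, ∀ j ∈ J, x j = v j} := by
  have : CompactSpace C := isCompact_iff_compactSpace.1 hC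
  have h1 : IsClosed {p : C × (Fin m → ℝ) | ∀ j ∈ J, (p.1 : Fin m → ℝ) j = p.2 j} := by
    simp only [Set.ofPred_forall]
    refine isClosed_iInter (fun j => isClosed_iInter (fun _ => ?_))
    exact isClosed_eq ((continuous_apply j).comp (continuous_subtype_val.comp continuous_fst))
      ((continuous_apply j).comp continuous_snd)
  have h2 := isClosedMap_snd_of_compactSpace (X := C) (Y := Fin m → ℝ) _ h1
  convert h2 using 1
  ext v
  simp

section

variable {m : ℕ} {K : Set (Fin m → ℝ)} (hK : IsCompact K) (J : Finset (Fin m)) (i : Fin m)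

include hK

lemma isCompact_values (l : List ℝ) :
    IsCompact {t | ∃ x ∈ K, (∀ j ∈ J, x j = l.getD j 0) ∧ x i = t} := by
  have h1 : IsCompact (K ∩ {x | ∀ j ∈ J, x j = l.getD j 0}) := by
    refine hK.inter_right ?_
    simp only [Set.ofPred_forall]
    exact isClosed_iInter (fun j => isClosed_iInter (fun _ =>
      isClosed_eq (continuous_apply j) continuous_const))
  have h2 := h1.image (continuous_apply i)
  convert h2 using 1
  ext t
  simp [and_assoc]

lemma skolFun_spec {l : List ℝ} (h : ∃ x ∈ K, ∀ j ∈ J, x j = l.getD j 0) :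
    ∃ x ∈ K, (∀ j ∈ J, x j = l.getD j 0) ∧ x i = skolFun K J i l := by
  obtain ⟨x, hx, hxl⟩ := h
  exact (isCompact_values hK J i l).sInf_mem ⟨x i, x, hx, hxl, rfl⟩

lemma skolFun_le_iff {l : List ℝ} (a : ℝ) :
    skolFun K J i l ≤ a ↔
      (∃ x ∈ K ∩ {x | x i ≤ a}, ∀ j ∈ J, x j = l.getD j 0) ∨
        ((¬ ∃ x ∈ K, ∀ j ∈ J, x j = l.getD j 0) ∧ 0 ≤ a) := by
  constructor
  · intro hle
    by_cases h : ∃ x ∈ K, ∀ j ∈ J, x j = l.getD j 0
    · obtain ⟨x, hx, hxl, hxi⟩ := skolFun_spec hK J i h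
      exact Or.inl ⟨x, ⟨hx, by show x i ≤ a; rw [hxi]; exact hle⟩, hxl⟩
    · refine Or.inr ⟨h, ?_⟩
      have : {t | ∃ x ∈ K, (∀ j ∈ J, x j = l.getD j 0) ∧ x i = t} = ∅ := by
        rw [Set.eq_empty_iff_forall_notMem]
        rintro t ⟨x, hx, hxl, _⟩
        exact h ⟨x, hx, hxl⟩
      unfold skolFun at hle
      rw [this, Real.sInf_empty] at hle
      exact hle
  · rintro (⟨x, ⟨hx, hxi⟩, hxl⟩ | ⟨h, h0⟩)
    · exact (csInf_le (isCompact_values hK J i l).bddBelow ⟨x, hx, hxl, rfl⟩).trans hxi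
    · have : {t | ∃ x ∈ K, (∀ j ∈ J, x j = l.getD j 0) ∧ x i = t} = ∅ := by
        rw [Set.eq_empty_iff_forall_notMem]
        rintro t ⟨x, hx, hxl, _⟩
        exact h ⟨x, hx, hxl⟩
      unfold skolFun
      rw [this, Real.sInf_empty]
      exact h0

lemma skolFun_meas : Meas (skolFun K J i) := by
  intro n
  refine measurable_of_Iic (fun a => ?_)
  have hco : Measurable (fun v : Fin n → ℝ => (fun j : Fin m => (List.ofFn v).getD j 0)) :=
    measurable_pi_lambda _ (fun j => (U.proj j).2 n)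
  have hC : IsCompact (K ∩ {x | x i ≤ a}) :=
    hK.inter_right (isClosed_le (continuous_apply i) continuous_const)
  have h1 := (isClosed_exists hC J).measurableSet.preimage hco
  have h2 := ((isClosed_exists hK J).measurableSet.preimage hco).compl
  by_cases ha : 0 ≤ a
  · convert h1.union h2 using 1
    ext v
    simp only [Set.mem_preimage, Set.mem_Iic, skolFun_le_iff hK, Set.mem_union, Set.mem_compl_iff]
    simp [ha]
  · convert h1 using 1
    ext v
    simp only [Set.mem_preimage, Set.mem_Iic, skolFun_le_iff hK]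
    simp [ha]

end

/-- Closure of a set of reals under a finitary function. -/
def ClosedUnder (S : Set ℝ) (g : List ℝ → ℝ) : Prop := ∀ l : List ℝ, (∀ x ∈ l, x ∈ S) → g l ∈ S

/-- Inside a compact set: given a tuple whose coordinates in `J` lie in `S`, there is a tuple
with the same coordinates in `J` and all coordinates in `S`. -/
lemma exists_in_compact {m : ℕ} {K : Set (Fin m → ℝ)} (hK : IsCompact K) {S : Set ℝ}
    (h0 : (0 : ℝ) ∈ S) (hS : ∀ (J : Finset (Fin m)) (i : Fin m), ClosedUnder S (skolFun K J i))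
    (J : Finset (Fin m)) (y : Fin m → ℝ) (hy : y ∈ K) (hyJ : ∀ j ∈ J, y j ∈ S) :
    ∃ x ∈ K, (∀ j ∈ J, x j = y j) ∧ ∀ i, x i ∈ S := by
  classical
  induction hn : (Finset.univ \ J).card generalizing J y with
  | zero =>
    have hJ : J = Finset.univ := by
      have := Finset.card_eq_zero.1 hn
      rw [Finset.sdiff_eq_empty_iff_subset] at this
      exact Finset.univ_subset_iff.1 this
    subst hJ
    exact ⟨y, hy, fun _ _ => rfl, fun i => hyJ i (Finset.mem_univ i)⟩
  | succ n ih =>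
    obtain ⟨i, hi⟩ := Finset.card_pos.1 (by rw [hn]; exact Nat.succ_pos n)
    have hiJ : i ∉ J := (Finset.mem_sdiff.1 hi).2
    let v : Fin m → ℝ := fun j => if j ∈ J then y j else 0
    have hgetD : ∀ j : Fin m, (List.ofFn v).getD j 0 = v j := by
      intro j
      rw [List.getD_eq_getElem _ _ (by simp)]
      simp
    have hvS : ∀ x ∈ List.ofFn v, x ∈ S := by
      intro x hx
      obtain ⟨j, rfl⟩ := (List.mem_ofFn' _ _).1 hx
      by_cases hj : j ∈ J
      · simp only [v, if_pos hj]; exact hyJ j hj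
      · simp only [v, if_neg hj]; exact h0
    have hex : ∃ x ∈ K, ∀ j ∈ J, x j = (List.ofFn v).getD j 0 :=
      ⟨y, hy, fun j hj => by rw [hgetD]; simp [v, hj]⟩
    obtain ⟨x, hxK, hxJ, hxi⟩ := skolFun_spec hK J i hex
    have hxJ' : ∀ j ∈ J, x j = y j := fun j hj => by rw [hxJ j hj, hgetD]; simp [v, hj]
    have hxiS : x i ∈ S := by rw [hxi]; exact hS J i _ hvS
    obtain ⟨x', hx'K, hx'J, hx'S⟩ := ih (insert i J) x hxK (by
        intro j hj
        rcases Finset.mem_insert.1 hj with rfl | hj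
        · exact hxiS
        · rw [hxJ' j hj]; exact hyJ j hj) (by
        have : Finset.univ \ insert i J = (Finset.univ \ J).erase i := by
          ext j; simp [Finset.mem_erase, not_or]
        rw [this, Finset.card_erase_of_mem hi, hn]
        rfl)
    exact ⟨x', hx'K, fun j hj => by
      rw [hx'J j (Finset.mem_insert_of_mem hj), hxJ' j hj], hx'S⟩

/-- The countable family of Skolem functions attached to a closed set `K` of tuples: those of
the traces of `K` on rational closed boxes. -/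
def skolFamily {m : ℕ} (K : Set (Fin m → ℝ)) : Set (List ℝ → ℝ) :=
  {g | ∃ (a b : Fin m → ℚ) (J : Finset (Fin m)) (i : Fin m),
    g = skolFun (K ∩ Set.Icc (fun j => (a j : ℝ)) (fun j => (b j : ℝ))) J i}

lemma skolFamily_countable {m : ℕ} (K : Set (Fin m → ℝ)) : (skolFamily K).Countable := by
  have : skolFamily K ⊆ Set.range
      (fun p : (Fin m → ℚ) × (Fin m → ℚ) × Finset (Fin m) × Fin m =>
        skolFun (K ∩ Set.Icc (fun j => (p.1 j : ℝ)) (fun j => (p.2.1 j : ℝ))) p.2.2.1 p.2.2.2) := by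
    rintro g ⟨a, b, J, i, rfl⟩
    exact ⟨(a, b, J, i), rfl⟩
  exact (Set.countable_range _).mono this

lemma skolFamily_meas {m : ℕ} {K : Set (Fin m → ℝ)} (hK : IsClosed K) {g : List ℝ → ℝ}
    (hg : g ∈ skolFamily K) : Meas g := by
  obtain ⟨a, b, J, i, rfl⟩ := hg
  exact skolFun_meas (isCompact_Icc.inter_left hK) J i

lemma exists_rat_box {m : ℕ} (x : Fin m → ℝ) {ε : ℝ} (hε : 0 < ε) :
    ∃ a b : Fin m → ℚ, x ∈ Set.Icc (fun j => (a j : ℝ)) (fun j => (b j : ℝ)) ∧
      ∀ y ∈ Set.Icc (fun j => (a j : ℝ)) (fun j => (b j : ℝ)), ∀ i, |y i - x i| < ε := by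
  have h1 : ∀ j, ∃ q : ℚ, x j - ε < q ∧ (q : ℝ) < x j := fun j => exists_rat_btwn (by linarith)
  have h2 : ∀ j, ∃ q : ℚ, x j < q ∧ (q : ℝ) < x j + ε := fun j => exists_rat_btwn (by linarith)
  choose a ha ha' using h1
  choose b hb hb' using h2
  refine ⟨a, b, ⟨fun j => (ha' j).le, fun j => (hb j).le⟩, ?_⟩
  rintro y ⟨hy1, hy2⟩ i
  have e1 := hy1 i
  have e2 := hy2 i
  simp only at e1 e2
  rw [abs_lt]
  constructor <;> linarith [ha i, hb' i]

/-- Approximation inside a closed set `K` by tuples from a set `S` closed under the Skolem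
functions of `K`, keeping the coordinates that already lie in `S`. -/
lemma exists_approx {m : ℕ} {K : Set (Fin m → ℝ)} (hK : IsClosed K) {S : Set ℝ}
    (h0 : (0 : ℝ) ∈ S) (hS : ∀ g ∈ skolFamily K, ClosedUnder S g)
    (x : Fin m → ℝ) (hx : x ∈ K) {ε : ℝ} (hε : 0 < ε) :
    ∃ y ∈ K, (∀ i, |y i - x i| < ε) ∧ (∀ i, x i ∈ S → y i = x i) ∧ ∀ i, y i ∈ S := by
  classical
  obtain ⟨a, b, hxab, hab⟩ := exists_rat_box x hε
  obtain ⟨y, hy, hy1, hy2⟩ := exists_in_compact (K := K ∩ Set.Icc _ _)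
    (isCompact_Icc.inter_left hK) h0 (fun J i => hS _ ⟨a, b, J, i, rfl⟩)
    (Finset.univ.filter (fun i => x i ∈ S)) x ⟨hx, hxab⟩ (by simp)
  exact ⟨y, hy.1, hab y hy.2, fun i hi => hy1 i (by simp [hi]), hy2⟩

/-- The separation lemma: if a point `x` of a closed set `K` and a finite chain of sets closed
under the Skolem functions of `K` separate each pair `(a, b) ∈ E` of coordinates (`x a` lies in
one of the sets, `x b` does not), then some points of `K` arbitrarily close to `x` move the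
coordinate `b` much more than the coordinate `a`, for all pairs. -/
lemma separation {m : ℕ} {K : Set (Fin m → ℝ)} (hK : IsClosed K) {W : Type} [LinearOrder W]
    (S : W → Set ℝ) (hmono : Monotone S) (I : Finset W) (h0 : ∀ ξ ∈ I, (0 : ℝ) ∈ S ξ)
    (hS : ∀ ξ ∈ I, ∀ g ∈ skolFamily K, ClosedUnder (S ξ) g)
    (x : Fin m → ℝ) (hx : x ∈ K) (E : Finset (Fin m × Fin m))
    (c : ℝ) (hc : 0 ≤ c) {ε : ℝ} (hε : 0 < ε) :
    ∃ y ∈ K, (∀ i, |y i - x i| < ε) ∧ (∀ i, (∀ ξ ∈ I, x i ∈ S ξ) → y i = x i) ∧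
      ∀ e ∈ E, (∃ ξ ∈ I, x e.1 ∈ S ξ ∧ x e.2 ∉ S ξ) → c * |y e.1 - x e.1| < |y e.2 - x e.2| := by
  classical
  induction I using Finset.induction_on_min with
  | empty =>
    refine ⟨x, hx, fun i => by simpa using hε, fun _ _ => rfl, ?_⟩
    rintro e _ ⟨ξ, hξ, _⟩
    simp at hξ
  | insert η I hη ih =>
    obtain ⟨y, hyK, hy1, hy2, hy3⟩ := ih (fun ξ hξ => h0 ξ (Finset.mem_insert_of_mem hξ))
      (fun ξ hξ => hS ξ (Finset.mem_insert_of_mem hξ))
    -- choose a small perturbation size
    obtain ⟨δ, hδ, hδ1, hδ2⟩ : ∃ δ > 0, (∀ i, |y i - x i| + δ ≤ ε) ∧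
        ∀ e ∈ E, (∃ ξ ∈ I, x e.1 ∈ S ξ ∧ x e.2 ∉ S ξ) →
          c * (|y e.1 - x e.1| + δ) < |y e.2 - x e.2| - δ := by
      have h1 : ∀ i, ∀ᶠ δ in nhdsWithin (0 : ℝ) (Set.Ioi 0), |y i - x i| + δ ≤ ε := by
        intro i
        have ht : Filter.Tendsto (fun δ : ℝ => |y i - x i| + δ) (nhdsWithin 0 (Set.Ioi 0))
            (nhds (|y i - x i| + 0)) :=
          (tendsto_const_nhds.add Filter.tendsto_id).mono_left nhdsWithin_le_nhds
        filter_upwards [ht.eventually_lt_const (by simpa using hy1 i)] with δ h using h.le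
      have h2 : ∀ e ∈ E, ∀ᶠ δ in nhdsWithin (0 : ℝ) (Set.Ioi 0),
          (∃ ξ ∈ I, x e.1 ∈ S ξ ∧ x e.2 ∉ S ξ) →
            c * (|y e.1 - x e.1| + δ) < |y e.2 - x e.2| - δ := by
        intro e he
        by_cases hsep : ∃ ξ ∈ I, x e.1 ∈ S ξ ∧ x e.2 ∉ S ξ
        · have hlt := hy3 e he hsep
          have ht : Filter.Tendsto (fun δ : ℝ => c * (|y e.1 - x e.1| + δ) -
              (|y e.2 - x e.2| - δ)) (nhdsWithin 0 (Set.Ioi 0))
              (nhds (c * (|y e.1 - x e.1| + 0) - (|y e.2 - x e.2| - 0))) := by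
            refine Filter.Tendsto.mono_left ?_ nhdsWithin_le_nhds
            exact Continuous.tendsto (by fun_prop) 0
          filter_upwards [ht.eventually_lt_const (u := 0) (by
            rw [add_zero, sub_zero]; linarith)] with δ h
          intro _
          linarith
        · exact Filter.Eventually.of_forall (fun _ h => absurd h hsep)
      obtain ⟨δ, ⟨h1δ, h2δ⟩, hδ⟩ := (((Filter.eventually_all.2 h1).and
        ((Filter.eventually_all_finset E).2 h2)).and self_mem_nhdsWithin).exists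
      exact ⟨δ, hδ, h1δ, h2δ⟩
    obtain ⟨z, hzK, hz1, hz2, hz3⟩ := exists_approx hK (h0 η (Finset.mem_insert_self _ _))
      (hS η (Finset.mem_insert_self _ _)) y hyK hδ
    refine ⟨z, hzK, ?_, ?_, ?_⟩
    · intro i
      have e1 := hz1 i
      have e2 := hδ1 i
      have e3 : |z i - x i| ≤ |z i - y i| + |y i - x i| := abs_sub_le _ _ _
      linarith
    · intro i hi
      have hyi : y i = x i := hy2 i (fun ξ hξ => hi ξ (Finset.mem_insert_of_mem hξ))
      rw [hz2 i (by rw [hyi]; exact hi η (Finset.mem_insert_self _ _)), hyi]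
    · rintro e he ⟨ξ, hξ, hξ1, hξ2⟩
      rcases Finset.mem_insert.1 hξ with rfl | hξ
      · have hye : y e.1 = x e.1 := hy2 e.1 (fun ζ hζ => hmono (hη ζ hζ).le hξ1)
        have hze : z e.1 = x e.1 := by rw [hz2 e.1 (by rw [hye]; exact hξ1), hye]
        have hne : z e.2 ≠ x e.2 := fun h => hξ2 (h ▸ hz3 e.2)
        rw [hze, sub_self, abs_zero, mul_zero]
        exact abs_pos.2 (sub_ne_zero.2 hne)
      · have h := hδ2 e he ⟨ξ, hξ, hξ1, hξ2⟩
        have e1 := hz1 e.1
        have e2 := hz1 e.2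
        have e3 : |z e.1 - x e.1| ≤ |z e.1 - y e.1| + |y e.1 - x e.1| := abs_sub_le _ _ _
        have e4 : |y e.2 - x e.2| ≤ |y e.2 - z e.2| + |z e.2 - x e.2| := abs_sub_le _ _ _
        rw [abs_sub_comm (y e.2) (z e.2)] at e4
        have e5 : c * |z e.1 - x e.1| ≤ c * (|y e.1 - x e.1| + δ) := by
          apply mul_le_mul_of_nonneg_left _ hc
          linarith
        linarith

end Pool.Agent.Wetzel
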