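import Mathlib
import Pool.Agent.Wetzel.Skolem

/-!
# Compact uncountable sets, the dichotomy, and generic reals
-/

namespace Pool.Agent.Wetzel

open Set

/-- Every uncountable Borel set of reals contains an uncountable compact set. -/
lemma exists_compact_uncountable {A : Set ℝ} (hA : MeasurableSet A) (hu : ¬ A.Countable) :
    ∃ K ⊆ A, IsCompact K ∧ ¬ K.Countable := by
  have hex : ∃ f : (ℕ → Bool) → ℝ, Set.range f ⊆ A ∧ Continuous f ∧ Function.Injective f := by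
    obtain ⟨t', ht', hpol, hclosed, hopen⟩ := hA.isClopenable
    obtain ⟨f, h1, h2, h3⟩ :=
      @IsClosed.exists_nat_bool_injection_of_not_countable ℝ t' hpol A hclosed hu
    exact ⟨f, h1, continuous_le_rng ht' h2, h3⟩
  obtain ⟨f, hfA, hfc', hfi⟩ := hex
  refine ⟨Set.range f, hfA, isCompact_range hfc', ?_⟩
  intro hc
  have h1 : (Set.univ : Set (ℕ → Bool)).Countable := by
    rw [← Set.image_univ] at hc
    exact Set.countable_of_injective_of_countable_image hfi.injOn hc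
  have h2 : Countable (ℕ → Bool) := Set.countable_univ_iff.1 h1
  have h3 : Cardinal.mk (ℕ → Bool) ≤ Cardinal.aleph0 := Cardinal.mk_le_aleph0
  have h4 : Cardinal.mk (ℕ → Bool) = Cardinal.continuum := by
    rw [← Cardinal.power_def, Cardinal.mk_bool, Cardinal.mk_nat, Cardinal.two_power_aleph0]
  rw [h4] at h3
  exact absurd h3 (not_le.2 Cardinal.aleph0_lt_continuum)

/-- A class of functions to which the main theorem applies: Borel functions, Lipschitz on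
`[0,1]`, any two distinct ones agreeing only countably often on `[0,1]`. -/
structure GoodClass (𝓐 : Set (ℝ → ℝ)) : Prop where
  measurable : ∀ φ ∈ 𝓐, Measurable φ
  lipschitz : ∀ φ ∈ 𝓐, ∃ n : ℕ, ∀ x ∈ Set.Icc (0 : ℝ) 1, ∀ y ∈ Set.Icc (0 : ℝ) 1,
    |φ x - φ y| ≤ n * |x - y|
  agree : ∀ φ ∈ 𝓐, ∀ ψ ∈ 𝓐, φ ≠ ψ → {x ∈ Set.Icc (0 : ℝ) 1 | φ x = ψ x}.Countable

variable (𝓐 : Set (ℝ → ℝ))

/-- The dichotomy for a Borel function `g` on a set `K`: either `g` coincides on `K` with a member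
of the class, or it agrees with each member of the class only countably often on `K`. -/
def Dich (g : U) (K : Set ℝ) : Prop :=
  (∃ φ ∈ 𝓐, ∀ z ∈ K, g.1 [z] = φ z) ∨ (∀ φ ∈ 𝓐, {z ∈ K | g.1 [z] = φ z}.Countable)

variable {𝓐}

lemma measurable_unary (g : U) : Measurable (fun z : ℝ => g.1 [z]) := by
  have h := g.2 1
  have h2 : Measurable (fun z : ℝ => (fun _ : Fin 1 => z)) := measurable_pi_lambda _ (fun _ => measurable_id)
  have h3 := h.comp h2
  simpa [Function.comp_def] using h3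

lemma exists_step (h𝓐 : ∀ φ ∈ 𝓐, Measurable φ) (g : U) {K : Set ℝ} (hK : IsCompact K)
    (hu : ¬ K.Countable) :
    ∃ K' ⊆ K, IsCompact K' ∧ ¬ K'.Countable ∧ g.1 [] ∉ K' ∧ Dich 𝓐 g K' := by
  have hu1 : ¬ (K \ {g.1 []}).Countable := by
    intro h
    apply hu
    exact (h.union (Set.countable_singleton (g.1 []))).mono (by
      intro x hx
      by_cases hxg : x = g.1 []
      · exact Or.inr hxg
      · exact Or.inl ⟨hx, hxg⟩)
  obtain ⟨K₁, hK₁, hK₁c, hK₁u⟩ := exists_compact_uncountable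
    (hK.measurableSet.diff (measurableSet_singleton _)) hu1
  have hg1 : g.1 [] ∉ K₁ := fun h => (hK₁ h).2 rfl
  have hK₁K : K₁ ⊆ K := fun x hx => (hK₁ hx).1
  by_cases h : ∃ φ ∈ 𝓐, ¬ {z ∈ K₁ | g.1 [z] = φ z}.Countable
  · obtain ⟨φ, hφ, hφu⟩ := h
    have hmeas : MeasurableSet {z ∈ K₁ | g.1 [z] = φ z} :=
      hK₁c.measurableSet.inter (measurableSet_eq_fun (measurable_unary g) (h𝓐 φ hφ))
    obtain ⟨K₂, hK₂, hK₂c, hK₂u⟩ := exists_compact_uncountable hmeas hφu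
    exact ⟨K₂, fun x hx => hK₁K (hK₂ hx).1, hK₂c, hK₂u, fun h => hg1 (hK₂ h).1,
      Or.inl ⟨φ, hφ, fun z hz => (hK₂ hz).2⟩⟩
  · push Not at h
    exact ⟨K₁, hK₁K, hK₁c, hK₁u, hg1, Or.inr h⟩

/-- Compact uncountable sets of reals. -/
abbrev KU : Type := {K : Set ℝ // IsCompact K ∧ ¬ K.Countable}

lemma KU_nonempty (K : KU) : K.1.Nonempty := by
  rw [Set.nonempty_iff_ne_empty]
  intro h
  exact K.2.2 (h ▸ Set.countable_empty)

/-- The unit interval as an element of `KU`. -/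
noncomputable def unitKU : KU := ⟨Set.Icc 0 1, isCompact_Icc, by
  intro h
  have h1 := Cardinal.mk_Icc_real (zero_lt_one (α := ℝ))
  have h2 := Cardinal.le_aleph0_iff_set_countable.2 h
  rw [h1] at h2
  exact absurd h2 (not_le.2 Cardinal.aleph0_lt_continuum)⟩

variable (𝓐) in
open Classical in
/-- One shrinking step (a fixed choice). -/
noncomputable def shrink (g : U) (K : KU) : KU :=
  if h : ∃ K' : KU, K'.1 ⊆ K.1 ∧ g.1 [] ∉ K'.1 ∧ Dich 𝓐 g K'.1 then h.choose else K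

lemma shrink_spec (h𝓐 : ∀ φ ∈ 𝓐, Measurable φ) (g : U) (K : KU) :
    (shrink 𝓐 g K).1 ⊆ K.1 ∧ g.1 [] ∉ (shrink 𝓐 g K).1 ∧ Dich 𝓐 g (shrink 𝓐 g K).1 := by
  have h : ∃ K' : KU, K'.1 ⊆ K.1 ∧ g.1 [] ∉ K'.1 ∧ Dich 𝓐 g K'.1 := by
    obtain ⟨K', h1, h2, h3, h4, h5⟩ := exists_step h𝓐 g K.2.1 K.2.2
    exact ⟨⟨K', h2, h3⟩, h1, h4, h5⟩
  unfold shrink
  rw [dif_pos h]
  exact h.choose_spec

variable (𝓐) in
/-- Iterated shrinking along a finite list of Borel functions. -/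
noncomputable def Sh (l : List U) : KU := l.foldr (shrink 𝓐) unitKU

lemma Sh_cons (g : U) (l : List U) : Sh 𝓐 (g :: l) = shrink 𝓐 g (Sh 𝓐 l) := rfl

lemma Sh_subset_unit (h𝓐 : ∀ φ ∈ 𝓐, Measurable φ) (l : List U) : (Sh 𝓐 l).1 ⊆ Set.Icc 0 1 := by
  induction l with
  | nil => exact subset_rfl
  | cons g l ih => exact (shrink_spec h𝓐 g _).1.trans ih

variable (𝓐) in
/-- `z` is generic over the set `B` of Borel functions. -/
def Generic (B : Set U) (z : ℝ) : Prop :=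
  ∀ g ∈ B, ∃ l : List U, (∀ h ∈ l, h ∈ B) ∧ z ∈ (Sh 𝓐 (g :: l)).1

lemma exists_generic (h𝓐 : ∀ φ ∈ 𝓐, Measurable φ) {B : Set U} (hB : B.Countable)
    (hne : B.Nonempty) : ∃ z, Generic 𝓐 B z := by
  obtain ⟨g, hg⟩ := hB.exists_eq_range hne
  let L : ℕ → List U := fun n => Nat.rec [] (fun i l => g i :: l) n
  have hL : ∀ n, L (n + 1) = g n :: L n := fun n => rfl
  have hmem : ∀ n, ∀ h ∈ L n, h ∈ B := by
    intro n
    induction n with
    | zero => intro h hh; simp [L] at hh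
    | succ n ih =>
      intro h hh
      rw [hL] at hh
      rcases List.mem_cons.1 hh with rfl | hh
      · rw [hg]; exact ⟨n, rfl⟩
      · exact ih h hh
  have hdec : ∀ n, (Sh 𝓐 (L (n + 1))).1 ⊆ (Sh 𝓐 (L n)).1 := by
    intro n
    rw [hL, Sh_cons]
    exact (shrink_spec h𝓐 _ _).1
  obtain ⟨z, hz⟩ := IsCompact.nonempty_iInter_of_sequence_nonempty_isCompact_isClosed
    (fun n => (Sh 𝓐 (L n)).1) hdec (fun n => KU_nonempty _) (Sh 𝓐 (L 0)).2.1
    (fun n => (Sh 𝓐 (L n)).2.1.isClosed)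
  refine ⟨z, ?_⟩
  intro h hh
  rw [hg] at hh
  obtain ⟨n, rfl⟩ := hh
  exact ⟨L n, hmem n, by rw [← hL]; exact Set.mem_iInter.1 hz (n + 1)⟩

end Pool.Agent.Wetzel
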