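import Mathlib
import Pool.Agent.Wetzel.Closure
import Pool.Agent.Wetzel.Perfect

/-!
# Countable chains of clones and generic reals
-/

namespace Pool.Agent.Wetzel

open Set Cl

/-- Linear orders of type `ω₁`: uncountable well-orders with countable initial segments. -/
class OmegaOne (W : Type) [LinearOrder W] : Prop where
  wf : WellFoundedLT W
  countable_Iio : ∀ a : W, (Set.Iio a).Countable
  uncountable : ¬ Countable W

section OmegaOne

variable {W : Type} [LinearOrder W] [hW : OmegaOne W]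

include hW

lemma exists_gt_all {A : Set W} (hA : A.Countable) : ∃ b, ∀ a ∈ A, a < b := by
  by_contra hcon
  push Not at hcon
  apply hW.uncountable
  rw [← Set.countable_univ_iff]
  refine (hA.biUnion (fun a _ => (hW.countable_Iio a).union (Set.countable_singleton a))).mono ?_
  intro b _
  obtain ⟨a, ha, hba⟩ := hcon b
  refine Set.mem_biUnion ha ?_
  rcases hba.lt_or_eq with h | h
  · exact Or.inl h
  · exact Or.inr h

lemma exists_min_of {p : W → Prop} (h : ∃ b, p b) : ∃ b, p b ∧ ∀ ξ < b, ¬ p ξ := by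
  have := hW.wf
  obtain ⟨b, hb⟩ := h
  obtain ⟨m, hm, hmin⟩ := WellFounded.has_min (wellFounded_lt (α := W)) {x | p x} ⟨b, hb⟩
  exact ⟨m, hm, fun ξ hξ hp => hmin ξ hp hξ⟩

lemma exists_lub {A : Set W} (hA : A.Countable) :
    ∃ b, (∀ a ∈ A, a ≤ b) ∧ ∀ ξ < b, ∃ a ∈ A, ξ < a := by
  obtain ⟨b₀, hb₀⟩ := exists_gt_all hA
  obtain ⟨b, hb, hmin⟩ := exists_min_of (p := fun b => ∀ a ∈ A, a ≤ b) ⟨b₀, fun a ha => (hb₀ a ha).le⟩
  refine ⟨b, hb, ?_⟩
  intro ξ hξ
  have := hmin ξ hξ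
  push Not at this
  exact this

lemma exists_succ (a : W) : ∃ b, a < b ∧ ∀ ξ < b, ξ ≤ a := by
  obtain ⟨b₀, hb₀⟩ := exists_gt_all (Set.countable_singleton a)
  obtain ⟨b, hb, hmin⟩ := exists_min_of (p := fun b => a < b) ⟨b₀, hb₀ a rfl⟩
  exact ⟨b, hb, fun ξ hξ => not_lt.1 (hmin ξ hξ)⟩

lemma exists_bot : ∃ b : W, ∀ ξ, ¬ ξ < b := by
  obtain ⟨b₀, _⟩ := exists_gt_all (W := W) Set.countable_empty
  obtain ⟨b, _, hmin⟩ := exists_min_of (p := fun _ : W => True) ⟨b₀, trivial⟩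
  exact ⟨b, fun ξ hξ => hmin ξ hξ trivial⟩

end OmegaOne

/-- A node: a countable sequence of Borel functions to be added, and a real. -/
abbrev Node : Type := (ℕ → U) × ℝ

/-- The trivial node. -/
def defNode : Node := (fun _ => U.proj 0, 0)

/-- The closure rule for clones of functions: projections and composition. -/
def cloneRule : List U → Set U
  | [] => Set.range U.proj
  | g :: hs => {U.comp g hs}

lemma cloneRule_countable (l : List U) : (cloneRule l).Countable := by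
  cases l with
  | nil => exact Set.countable_range _
  | cons g hs => exact Set.countable_singleton _

section Clone

variable {W : Type} [LinearOrder W]

/-- Generators of the `ξ`-th clone: all the functions and the constants of earlier nodes. -/
def gens (f : W → Node) (ξ : W) : Set U :=
  {g | ∃ ζ < ξ, (∃ n, g = (f ζ).1 n) ∨ g = U.const (f ζ).2}

/-- The `ξ`-th clone. -/
def clone (f : W → Node) (ξ : W) : Set U := cl cloneRule (gens f ξ)

lemma clone_countable [hW : OmegaOne W] (f : W → Node) (ξ : W) : (clone f ξ).Countable := by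
  refine cl_countable cloneRule_countable ?_
  have h : gens f ξ = ⋃ ζ ∈ Set.Iio ξ, (Set.range (f ζ).1 ∪ {U.const (f ζ).2}) := by
    ext g
    simp only [gens, Set.mem_iUnion, Set.mem_union, Set.mem_range, Set.mem_singleton_iff,
      Set.mem_Iio, exists_prop]
    constructor
    · rintro ⟨ζ, hζ, (⟨n, rfl⟩ | rfl)⟩
      · exact ⟨ζ, hζ, Or.inl ⟨n, rfl⟩⟩
      · exact ⟨ζ, hζ, Or.inr rfl⟩
    · rintro ⟨ζ, hζ, (⟨n, rfl⟩ | rfl)⟩
      · exact ⟨ζ, hζ, Or.inl ⟨n, rfl⟩⟩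
      · exact ⟨ζ, hζ, Or.inr rfl⟩
  rw [h]
  exact (hW.countable_Iio ξ).biUnion
    (fun ζ _ => (Set.countable_range _).union (Set.countable_singleton _))

lemma gens_mono (f : W → Node) {ξ η : W} (h : ξ ≤ η) : gens f ξ ⊆ gens f η := by
  rintro g ⟨ζ, hζ, hg⟩
  exact ⟨ζ, hζ.trans_le h, hg⟩

lemma clone_mono (f : W → Node) {ξ η : W} (h : ξ ≤ η) : clone f ξ ⊆ clone f η :=
  cl_mono (gens_mono f h)

lemma gens_congr {f f' : W → Node} {ξ : W} (h : ∀ ζ < ξ, f ζ = f' ζ) : gens f ξ = gens f' ξ := by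
  ext g
  constructor
  · rintro ⟨ζ, hζ, hg⟩
    exact ⟨ζ, hζ, by rw [← h ζ hζ]; exact hg⟩
  · rintro ⟨ζ, hζ, hg⟩
    exact ⟨ζ, hζ, by rw [h ζ hζ]; exact hg⟩

lemma clone_congr {f f' : W → Node} {ξ : W} (h : ∀ ζ < ξ, f ζ = f' ζ) :
    clone f ξ = clone f' ξ := by
  rw [clone, clone, gens_congr h]

lemma proj_mem_clone (f : W → Node) (ξ : W) (i : ℕ) : U.proj i ∈ clone f ξ :=
  cl_closed (l := []) (by simp) ⟨i, rfl⟩

lemma comp_mem_clone (f : W → Node) (ξ : W) {g : U} {hs : List U} (hg : g ∈ clone f ξ)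
    (hhs : ∀ h ∈ hs, h ∈ clone f ξ) : U.comp g hs ∈ clone f ξ := by
  refine cl_closed (l := g :: hs) ?_ rfl
  intro x hx
  rcases List.mem_cons.1 hx with rfl | hx
  · exact hg
  · exact hhs x hx

lemma fun_mem_clone (f : W → Node) {ζ ξ : W} (h : ζ < ξ) (n : ℕ) : (f ζ).1 n ∈ clone f ξ :=
  subset_cl ⟨ζ, h, Or.inl ⟨n, rfl⟩⟩

lemma const_mem_clone (f : W → Node) {ζ ξ : W} (h : ζ < ξ) : U.const (f ζ).2 ∈ clone f ξ :=
  subset_cl ⟨ζ, h, Or.inr rfl⟩

lemma clone_nonempty (f : W → Node) (ξ : W) : (clone f ξ).Nonempty := ⟨_, proj_mem_clone f ξ 0⟩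

/-- Continuity of the clones. -/
lemma exists_mem_clone_of_lub (f : W → Node) {a : ℕ → W} (ha : Monotone a) {ξ : W}
    (hξ : ∀ ζ < ξ, ∃ n, ζ < a n) {g : U} (hg : g ∈ clone f ξ) : ∃ n, g ∈ clone f (a n) := by
  have h : gens f ξ ⊆ ⋃ n, gens f (a n) := by
    rintro g ⟨ζ, hζ, hg⟩
    obtain ⟨n, hn⟩ := hξ ζ hζ
    exact Set.mem_iUnion.2 ⟨n, ζ, hn, hg⟩
  exact mem_cl_iUnion (Monotone.directed_le (fun m n hmn => gens_mono f (ha hmn)))
    (cl_mono h hg)

/-- The reals named by the `ξ`-th clone. -/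
def reals (f : W → Node) (ξ : W) : Set ℝ := {t | ∃ g ∈ clone f ξ, g.1 [] = t}

/-- The reals obtained from `z` and the `ξ`-th clone. -/
def realsOver (f : W → Node) (ξ : W) (z : ℝ) : Set ℝ := {t | ∃ g ∈ clone f ξ, g.1 [z] = t}

lemma reals_countable [OmegaOne W] (f : W → Node) (ξ : W) : (reals f ξ).Countable := by
  have : reals f ξ = (fun g : U => g.1 []) '' clone f ξ := rfl
  rw [this]
  exact (clone_countable f ξ).image _

lemma reals_mono (f : W → Node) {ξ η : W} (h : ξ ≤ η) : reals f ξ ⊆ reals f η := by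
  rintro t ⟨g, hg, rfl⟩
  exact ⟨g, clone_mono f h hg, rfl⟩

lemma reals_congr {f f' : W → Node} {ξ : W} (h : ∀ ζ < ξ, f ζ = f' ζ) :
    reals f ξ = reals f' ξ := by
  rw [reals, reals, clone_congr h]

lemma realsOver_congr {f f' : W → Node} {ξ : W} (h : ∀ ζ < ξ, f ζ = f' ζ) (z : ℝ) :
    realsOver f ξ z = realsOver f' ξ z := by
  rw [realsOver, realsOver, clone_congr h]

lemma zero_mem_reals (f : W → Node) (ξ : W) : (0 : ℝ) ∈ reals f ξ :=
  ⟨_, proj_mem_clone f ξ 0, by simp [U.proj]⟩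

lemma zero_mem_realsOver (f : W → Node) (ξ : W) (z : ℝ) : (0 : ℝ) ∈ realsOver f ξ z :=
  ⟨_, proj_mem_clone f ξ 1, by simp [U.proj]⟩

lemma self_mem_realsOver (f : W → Node) (ξ : W) (z : ℝ) : z ∈ realsOver f ξ z :=
  ⟨_, proj_mem_clone f ξ 0, by simp [U.proj]⟩

lemma reals_subset_realsOver (f : W → Node) (ξ : W) (z : ℝ) : reals f ξ ⊆ realsOver f ξ z := by
  rintro t ⟨g, hg, rfl⟩
  exact ⟨U.comp g [], comp_mem_clone f ξ hg (by simp), by simp [U.comp]⟩

lemma mem_reals_of_lt (f : W → Node) {ζ ξ : W} (h : ζ < ξ) : (f ζ).2 ∈ reals f ξ :=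
  ⟨_, const_mem_clone f h, rfl⟩

/-- The reals over the `ζ`-th generic real belong to all later sets of reals. -/
lemma realsOver_subset_reals (f : W → Node) {ζ ξ : W} (h : ζ < ξ) :
    realsOver f ζ (f ζ).2 ⊆ reals f ξ := by
  rintro t ⟨g, hg, rfl⟩
  refine ⟨U.comp g [U.const (f ζ).2], comp_mem_clone f ξ (clone_mono f h.le hg) ?_, ?_⟩
  · intro x hx
    simp only [List.mem_singleton] at hx
    subst hx
    exact const_mem_clone f h
  · simp [U.comp, U.const]

lemma reals_closedUnder (f : W → Node) (ξ : W) {g : U} (hg : g ∈ clone f ξ) :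
    ClosedUnder (reals f ξ) g.1 := by
  intro l hl
  have : ∃ hs : List U, (∀ h ∈ hs, h ∈ clone f ξ) ∧ hs.map (fun h => h.1 []) = l := by
    clear hg
    induction l with
    | nil => exact ⟨[], by simp, rfl⟩
    | cons a l ih =>
      obtain ⟨hs, h1, h2⟩ := ih (fun x hx => hl x (List.mem_cons_of_mem _ hx))
      obtain ⟨h, hh, hh2⟩ := hl a List.mem_cons_self
      refine ⟨h :: hs, ?_, ?_⟩
      · intro x hx
        rcases List.mem_cons.1 hx with rfl | hx
        · exact hh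
        · exact h1 x hx
      · simp [h2, hh2]
  obtain ⟨hs, h1, h2⟩ := this
  exact ⟨U.comp g hs, comp_mem_clone f ξ hg h1, by
    show g.1 (hs.map (fun h => h.1 [])) = g.1 l
    rw [h2]⟩

lemma realsOver_closedUnder (f : W → Node) (ξ : W) (z : ℝ) {g : U} (hg : g ∈ clone f ξ) :
    ClosedUnder (realsOver f ξ z) g.1 := by
  intro l hl
  have : ∃ hs : List U, (∀ h ∈ hs, h ∈ clone f ξ) ∧ hs.map (fun h => h.1 [z]) = l := by
    clear hg
    induction l with
    | nil => exact ⟨[], by simp, rfl⟩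
    | cons a l ih =>
      obtain ⟨hs, h1, h2⟩ := ih (fun x hx => hl x (List.mem_cons_of_mem _ hx))
      obtain ⟨h, hh, hh2⟩ := hl a List.mem_cons_self
      refine ⟨h :: hs, ?_, ?_⟩
      · intro x hx
        rcases List.mem_cons.1 hx with rfl | hx
        · exact hh
        · exact h1 x hx
      · simp [h2, hh2]
  obtain ⟨hs, h1, h2⟩ := this
  exact ⟨U.comp g hs, comp_mem_clone f ξ hg h1, by
    show g.1 (hs.map (fun h => h.1 [z])) = g.1 l
    rw [h2]⟩

end Clone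

/-! ### Chains -/

/-- A countable chain: a sequence of nodes of length `α`, each real being generic over the clone
generated by the previous nodes. -/
structure Ch (W : Type) [LinearOrder W] (𝓐 : Set (ℝ → ℝ)) where
  /-- the length -/
  α : W
  /-- the nodes -/
  f : W → Node
  supp : ∀ ξ, ¬ ξ < α → f ξ = defNode
  gen : ∀ ξ < α, Generic 𝓐 (clone f ξ) (f ξ).2

namespace Ch

variable {W : Type} [LinearOrder W] {𝓐 : Set (ℝ → ℝ)}

/-- `c ≤ d` iff `c` end-extends `d`. -/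
instance : PartialOrder (Ch W 𝓐) where
  le c d := d.α ≤ c.α ∧ ∀ ξ < d.α, c.f ξ = d.f ξ
  le_refl c := ⟨le_refl _, fun _ _ => rfl⟩
  le_trans a b c hab hbc := ⟨hbc.1.trans hab.1, fun ξ hξ =>
    (hab.2 ξ (hξ.trans_le hbc.1)).trans (hbc.2 ξ hξ)⟩
  le_antisymm a b hab hba := by
    have hα : a.α = b.α := le_antisymm hba.1 hab.1
    have hf : a.f = b.f := by
      funext ξ
      by_cases h : ξ < b.α
      · exact hab.2 ξ h
      · rw [b.supp ξ h, a.supp ξ (hα ▸ h)]
    cases a; cases b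
    simp only at hα hf
    subst hα; subst hf
    rfl

lemma le_def {c d : Ch W 𝓐} : c ≤ d ↔ d.α ≤ c.α ∧ ∀ ξ < d.α, c.f ξ = d.f ξ := Iff.rfl

lemma clone_eq {c d : Ch W 𝓐} (h : c ≤ d) {ξ : W} (hξ : ξ ≤ d.α) :
    clone c.f ξ = clone d.f ξ :=
  clone_congr (fun ζ hζ => h.2 ζ (hζ.trans_le hξ))

/-- Lower bounds of descending sequences. -/
lemma exists_union [OmegaOne W] (c : ℕ → Ch W 𝓐) (hc : Antitone c) :
    ∃ d : Ch W 𝓐, (∀ n, d ≤ c n) ∧ ∀ ξ < d.α, ∃ n, ξ < (c n).α := by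
  classical
  obtain ⟨β, hβ1, hβ2⟩ := exists_lub (A := Set.range (fun n => (c n).α)) (Set.countable_range _)
  have hβ1' : ∀ n, (c n).α ≤ β := fun n => hβ1 _ ⟨n, rfl⟩
  have hβ2' : ∀ ξ < β, ∃ n, ξ < (c n).α := by
    intro ξ hξ
    obtain ⟨_, ⟨n, rfl⟩, hn⟩ := hβ2 ξ hξ
    exact ⟨n, hn⟩
  have hagree : ∀ m n ξ, ξ < (c m).α → ξ < (c n).α → (c m).f ξ = (c n).f ξ := by
    intro m n ξ hm hn
    rcases le_total m n with h | h
    · exact ((hc h).2 ξ hm).symm
    · exact (hc h).2 ξ hn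
  let F : W → Node := fun ξ => if h : ∃ n, ξ < (c n).α then (c h.choose).f ξ else defNode
  have hF : ∀ n ξ, ξ < (c n).α → F ξ = (c n).f ξ := by
    intro n ξ hξ
    have h : ∃ n, ξ < (c n).α := ⟨n, hξ⟩
    simp only [F]
    rw [dif_pos h]
    exact hagree _ _ ξ h.choose_spec hξ
  refine ⟨⟨β, F, ?_, ?_⟩, ?_, hβ2'⟩
  · intro ξ hξ
    simp only [F]
    rw [dif_neg]
    rintro ⟨n, hn⟩
    exact hξ (hn.trans_le (hβ1' n))
  · intro ξ hξ
    obtain ⟨n, hn⟩ := hβ2' ξ hξ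
    rw [hF n ξ hn, clone_congr (f' := (c n).f) (fun ζ hζ => hF n ζ (hζ.trans hn))]
    exact (c n).gen ξ hn
  · intro n
    exact ⟨hβ1' n, fun ξ hξ => hF n ξ hξ⟩

/-- One-step extension by prescribed functions. -/
lemma exists_extend [OmegaOne W] (h𝓐 : ∀ φ ∈ 𝓐, Measurable φ) (c : Ch W 𝓐) (gs : ℕ → U) :
    ∃ d : Ch W 𝓐, d ≤ c ∧ c.α < d.α ∧ (d.f c.α).1 = gs := by
  classical
  obtain ⟨β, hβ, hβ'⟩ := exists_succ c.α
  obtain ⟨z, hz⟩ := exists_generic h𝓐 (clone_countable c.f c.α) (clone_nonempty c.f c.α)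
  let F : W → Node := fun ξ => if ξ = c.α then (gs, z) else c.f ξ
  have hF : ∀ ξ < c.α, F ξ = c.f ξ := fun ξ hξ => if_neg hξ.ne
  refine ⟨⟨β, F, ?_, ?_⟩, ?_, hβ, ?_⟩
  · intro ξ hξ
    have h1 : ξ ≠ c.α := by rintro rfl; exact hξ hβ
    simp only [F, if_neg h1]
    refine c.supp ξ (fun h => hξ (h.trans hβ))
  · intro ξ hξ
    rcases (hβ' ξ hξ).lt_or_eq with h | h
    · rw [hF ξ h, clone_congr (f' := c.f) (fun ζ hζ => hF ζ (hζ.trans h))]
      exact c.gen ξ h
    · subst h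
      rw [clone_congr (f' := c.f) (fun ζ hζ => hF ζ hζ)]
      simp only [F, if_true]
      exact hz
  · exact ⟨hβ.le, hF⟩
  · simp [F]

/-- Chains can be extended beyond any length. -/
lemma exists_long [hW : OmegaOne W] (h𝓐 : ∀ φ ∈ 𝓐, Measurable φ) (ξ : W) :
    ∀ c : Ch W 𝓐, ∃ d : Ch W 𝓐, d ≤ c ∧ ξ < d.α := by
  have := hW.wf
  induction ξ using WellFoundedLT.induction with
  | ind ξ ih =>
    intro c
    -- first reach length at least `ξ`
    have key : ∃ d : Ch W 𝓐, d ≤ c ∧ ξ ≤ d.α := by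
      rcases Set.eq_empty_or_nonempty (Set.Iio ξ) with he | hne
      · refine ⟨c, le_refl c, not_lt.1 (fun h => ?_)⟩
        have : c.α ∈ Set.Iio ξ := h
        rw [he] at this
        exact this
      · obtain ⟨e, he⟩ := (hW.countable_Iio ξ).exists_eq_range hne
        have he' : ∀ n, e n < ξ := fun n => by
          have : e n ∈ Set.Iio ξ := by rw [he]; exact ⟨n, rfl⟩
          exact this
        choose! ext hext1 hext2 using ih
        let s : ℕ → Ch W 𝓐 := fun n => Nat.rec c (fun i d => ext (e i) d) n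
        have hs : ∀ n, s (n + 1) = ext (e n) (s n) := fun n => rfl
        have hanti : Antitone s := antitone_nat_of_succ_le (fun n => by
          rw [hs]; exact hext1 _ (he' n) _)
        obtain ⟨d, hd1, _⟩ := exists_union s hanti
        refine ⟨d, hd1 0, ?_⟩
        by_contra hlt
        push Not at hlt
        have : d.α ∈ Set.Iio ξ := hlt
        rw [he] at this
        obtain ⟨n, hn⟩ := this
        have h1 := hext2 (e n) (he' n) (s n)
        rw [← hs, hn] at h1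
        exact absurd (hd1 (n + 1)).1 (not_le.2 h1)
    obtain ⟨d, hd, hξ⟩ := key
    obtain ⟨d', hd', hlt, _⟩ := exists_extend h𝓐 d (fun _ => U.proj 0)
    exact ⟨d', hd'.trans hd, hξ.trans_lt hlt⟩

/-- The trivial chain. -/
lemma nonempty [OmegaOne W] : Nonempty (Ch W 𝓐) := by
  obtain ⟨b, hb⟩ := exists_bot (W := W)
  exact ⟨⟨b, fun _ => defNode, fun _ _ => rfl, fun ξ hξ => absurd hξ (hb ξ)⟩⟩

end Ch

end Pool.Agent.Wetzel
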