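import Mathlib
import Pool.Agent.Wetzel.Perfect

/-!
# Entire functions and real-analytic functions
-/

namespace Pool.Agent.Wetzel

open Set Cardinal

/-- The class of real-analytic functions on the line. -/
def RA : Set (ℝ → ℝ) := {φ | ∀ x, AnalyticAt ℝ φ x}

lemma goodClass_RA : GoodClass RA where
  measurable := by
    intro φ hφ
    exact (continuous_iff_continuousAt.2 (fun x => (hφ x).continuousAt)).measurable
  lipschitz := by
    intro φ hφ
    have hcont : ContinuousOn (deriv φ) (Set.Icc 0 1) := fun x _ =>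
      ((hφ x).deriv.continuousAt).continuousWithinAt
    obtain ⟨C, hC⟩ := isCompact_Icc.exists_bound_of_continuousOn hcont
    obtain ⟨n, hn⟩ := exists_nat_ge C
    refine ⟨n, ?_⟩
    intro x hx y hy
    have h := Convex.norm_image_sub_le_of_norm_deriv_le (f := φ) (C := C) (s := Set.Icc (0 : ℝ) 1)
      (fun z _ => (hφ z).differentiableAt) hC (convex_Icc 0 1) hy hx
    rw [Real.norm_eq_abs, Real.norm_eq_abs] at h
    exact h.trans (mul_le_mul_of_nonneg_right hn (abs_nonneg _))
  agree := by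
    intro φ hφ ψ hψ hne
    by_contra hcount
    apply hne
    have hinf : {x ∈ Set.Icc (0 : ℝ) 1 | φ x = ψ x}.Infinite := fun h => hcount h.countable
    obtain ⟨x, _, hx⟩ := hinf.exists_accPt_of_subset_isCompact isCompact_Icc (fun x hx => hx.1)
    rw [accPt_iff_frequently_nhdsNE] at hx
    have h1 : ∃ᶠ z in nhdsWithin x {x}ᶜ, φ z = ψ z := hx.mono (fun z hz => hz.2)
    exact AnalyticOnNhd.eq_of_frequently_eq (𝕜 := ℝ) (fun z _ => hφ z) (fun z _ => hψ z) h1

/-- The real part of an entire function on the real line. -/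
def rePart (f : ℂ → ℂ) : ℝ → ℝ := fun x => (f x).re

/-- The imaginary part of an entire function on the real line. -/
def imPart (f : ℂ → ℂ) : ℝ → ℝ := fun x => (f x).im

lemma analyticAt_line {f : ℂ → ℂ} (hf : Differentiable ℂ f) (x : ℝ) :
    AnalyticAt ℝ (fun t : ℝ => f t) x := by
  have h1 : AnalyticAt ℝ f (Complex.ofRealCLM x) := (hf.analyticAt x).restrictScalars
  exact h1.comp (Complex.ofRealCLM.analyticAt x)

lemma rePart_mem {f : ℂ → ℂ} (hf : Differentiable ℂ f) : rePart f ∈ RA := by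
  intro x
  exact (Complex.reCLM.analyticAt _).comp (analyticAt_line hf x)

lemma imPart_mem {f : ℂ → ℂ} (hf : Differentiable ℂ f) : imPart f ∈ RA := by
  intro x
  exact (Complex.imCLM.analyticAt _).comp (analyticAt_line hf x)

lemma eq_of_seq {f g : ℂ → ℂ} (hf : Differentiable ℂ f) (hg : Differentiable ℂ g)
    (h : ∀ n : ℕ, f (((1 / ((n : ℝ) + 1) : ℝ) : ℂ)) = g (((1 / ((n : ℝ) + 1) : ℝ) : ℂ))) :
    f = g := by
  refine AnalyticOnNhd.eq_of_frequently_eq (𝕜 := ℂ) (z₀ := 0) (fun z _ => hf.analyticAt z)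
    (fun z _ => hg.analyticAt z) ?_
  have ht : Filter.Tendsto (fun n : ℕ => (((1 / ((n : ℝ) + 1) : ℝ)) : ℂ)) Filter.atTop
      (nhdsWithin 0 {0}ᶜ) := by
    rw [tendsto_nhdsWithin_iff]
    constructor
    · have h1 : Filter.Tendsto (fun n : ℕ => (1 / ((n : ℝ) + 1) : ℝ)) Filter.atTop (nhds 0) :=
        tendsto_one_div_add_atTop_nhds_zero_nat
      have h2 := (Complex.continuous_ofReal.tendsto 0).comp h1
      rw [Complex.ofReal_zero] at h2
      exact h2
    · refine Filter.Eventually.of_forall (fun n => ?_)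
      simp only [Set.mem_compl_iff, Set.mem_singleton_iff, Complex.ofReal_eq_zero]
      positivity
  exact ht.frequently (Filter.Frequently.of_forall h)

lemma eq_of_parts {f g : ℂ → ℂ} (hf : Differentiable ℂ f) (hg : Differentiable ℂ g)
    (h1 : rePart f = rePart g) (h2 : imPart f = imPart g) : f = g := by
  apply eq_of_seq hf hg
  intro n
  exact Complex.ext (congrFun h1 _) (congrFun h2 _)

/-- There are at most continuum many entire functions. -/
lemma mk_entire_le {F : Set (ℂ → ℂ)} (hF : ∀ f ∈ F, Differentiable ℂ f) : #F ≤ 𝔠 := by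
  have h : Function.Injective (fun (f : F) (n : ℕ) => f.1 (((1 / ((n : ℝ) + 1) : ℝ) : ℂ))) := by
    intro f g hfg
    exact Subtype.ext (eq_of_seq (hF f.1 f.2) (hF g.1 g.2) (fun n => congrFun hfg n))
  refine (mk_le_of_injective h).trans ?_
  rw [← power_def, Cardinal.mk_complex, mk_nat, continuum_power_aleph0]

/-- Two distinct entire functions agree only countably often. -/
lemma countable_agree {f g : ℂ → ℂ} (hf : Differentiable ℂ f) (hg : Differentiable ℂ g)
    (hne : f ≠ g) : {z : ℂ | f z = g z}.Countable := by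
  have hdisc : ∀ z : ℂ, ∃ V ∈ nhds z, ({z : ℂ | f z = g z} ∩ V).Countable := by
    intro z
    have h1 : ∀ᶠ w in nhdsWithin z {z}ᶜ, f w ≠ g w := by
      by_contra hcon
      rw [Filter.not_eventually] at hcon
      apply hne
      refine AnalyticOnNhd.eq_of_frequently_eq (𝕜 := ℂ) (z₀ := z) (fun z _ => hf.analyticAt z)
        (fun z _ => hg.analyticAt z) (hcon.mono (fun w hw => ?_))
      by_contra h
      exact hw h
    rw [eventually_nhdsWithin_iff] at h1
    refine ⟨_, h1, ?_⟩
    refine (Set.countable_singleton z).mono ?_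
    rintro w ⟨hw1, hw2⟩
    by_contra hwz
    exact hw2 hwz hw1
  choose V hV hVc using hdisc
  obtain ⟨s, hs, hsu⟩ := TopologicalSpace.countable_cover_nhds hV
  have : {z : ℂ | f z = g z} ⊆ ⋃ x ∈ s, ({z : ℂ | f z = g z} ∩ V x) := by
    intro z hz
    have hz' : z ∈ ⋃ x ∈ s, V x := by rw [hsu]; trivial
    obtain ⟨x, hx, hzx⟩ := Set.mem_iUnion₂.1 hz'
    exact Set.mem_biUnion hx ⟨hz, hzx⟩
  exact (hs.biUnion (fun x _ => hVc x)).mono this

/-- A family of fewer than continuum many entire functions takes at some point as many values as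
it has members. -/
lemma exists_separating {F : Set (ℂ → ℂ)} (hF : ∀ f ∈ F, Differentiable ℂ f) (hc : #F < 𝔠) :
    ∃ z : ℂ, #F ≤ #((fun f : ℂ → ℂ => f z) '' F) := by
  have hsmall : #(⋃ p : F × F, {z : ℂ | p.1.1 ≠ p.2.1 ∧ p.1.1 z = p.2.1 z}) < 𝔠 := by
    refine (mk_iUnion_le _).trans_lt ?_
    have h1 : (⨆ p : F × F, #({z : ℂ | p.1.1 ≠ p.2.1 ∧ p.1.1 z = p.2.1 z})) ≤ ℵ₀ := by
      refine ciSup_le' (fun p => ?_)
      rw [le_aleph0_iff_set_countable]
      by_cases h : p.1.1 = p.2.1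
      · have : {z : ℂ | p.1.1 ≠ p.2.1 ∧ p.1.1 z = p.2.1 z} = ∅ := by
          rw [Set.eq_empty_iff_forall_notMem]
          rintro z ⟨h1, _⟩
          exact h1 h
        rw [this]; exact Set.countable_empty
      · exact (countable_agree (hF _ p.1.2) (hF _ p.2.2) h).mono (fun z hz => hz.2)
    refine (mul_le_mul' le_rfl h1).trans_lt ?_
    simp only [mk_prod, lift_id]
    exact mul_lt_of_lt aleph0_le_continuum
      (mul_lt_of_lt aleph0_le_continuum hc hc) aleph0_lt_continuum
  obtain ⟨z, hz⟩ : ∃ z : ℂ, z ∉ ⋃ p : F × F, {z : ℂ | p.1.1 ≠ p.2.1 ∧ p.1.1 z = p.2.1 z} := by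
    by_contra hcon
    push Not at hcon
    have : (⋃ p : F × F, {z : ℂ | p.1.1 ≠ p.2.1 ∧ p.1.1 z = p.2.1 z}) = Set.univ :=
      Set.eq_univ_of_forall hcon
    rw [this, mk_univ, Cardinal.mk_complex] at hsmall
    exact lt_irrefl _ hsmall
  refine ⟨z, ?_⟩
  have hinj : Set.InjOn (fun f : ℂ → ℂ => f z) F := by
    intro f hf g hg h
    by_contra hne
    exact hz (Set.mem_iUnion.2 ⟨(⟨f, hf⟩, ⟨g, hg⟩), hne, h⟩)
  rw [mk_image_eq_of_injOn _ _ hinj]

end Pool.Agent.Wetzel
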