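import Mathlib
import Pool.Agent.Wetzel.Chain

/-!
# The forcing notion and its properness
-/

namespace Pool.Agent.Wetzel

open Set Cl

/-- An entry `(z, w, n, k)`: the point `(z, w)` receives the colour `k` in the `n`-th colouring. -/
abbrev Entry : Type := ℝ × ℝ × ℕ × ℕ

/-- Conditions: a countable chain and a finite set of entries, all colour classes being steep. -/
structure Cond (W : Type) [LinearOrder W] (𝓐 : Set (ℝ → ℝ)) where
  /-- the chain -/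
  c : Ch W 𝓐
  /-- the entries -/
  q : Finset Entry
  side : ∀ e ∈ q, ∃ ξ < c.α, (c.f ξ).2 = e.1 ∧ e.2.1 ∉ realsOver c.f ξ e.1
  steep : ∀ e ∈ q, ∀ e' ∈ q, e.2.2 = e'.2.2 → e ≠ e' →
    (e.2.2.1 : ℝ) * |e.1 - e'.1| < |e.2.1 - e'.2.1|

namespace Cond

variable {W : Type} [LinearOrder W] {𝓐 : Set (ℝ → ℝ)}

instance : PartialOrder (Cond W 𝓐) where
  le p p' := p.c ≤ p'.c ∧ p'.q ⊆ p.q
  le_refl p := ⟨le_refl _, Finset.Subset.refl _⟩
  le_trans a b d hab hbd := ⟨hab.1.trans hbd.1, hbd.2.trans hab.2⟩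
  le_antisymm a b hab hba := by
    have h1 := le_antisymm hab.1 hba.1
    have h2 := Finset.Subset.antisymm hba.2 hab.2
    cases a; cases b
    simp only at h1 h2
    subst h1; subst h2
    rfl

lemma le_def {p p' : Cond W 𝓐} : p ≤ p' ↔ p.c ≤ p'.c ∧ p'.q ⊆ p.q := Iff.rfl

/-- The side condition is preserved by extending the chain. -/
lemma side_of_le {c c' : Ch W 𝓐} (h : c' ≤ c) {e : Entry}
    (he : ∃ ξ < c.α, (c.f ξ).2 = e.1 ∧ e.2.1 ∉ realsOver c.f ξ e.1) :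
    ∃ ξ < c'.α, (c'.f ξ).2 = e.1 ∧ e.2.1 ∉ realsOver c'.f ξ e.1 := by
  obtain ⟨ξ, hξ, h1, h2⟩ := he
  refine ⟨ξ, hξ.trans_le h.1, by rw [h.2 ξ hξ]; exact h1, ?_⟩
  rw [realsOver_congr (f' := c.f) (fun ζ hζ => h.2 ζ (hζ.trans hξ))]
  exact h2

/-- Replace the chain by a stronger one. -/
def withChain (p : Cond W 𝓐) (c' : Ch W 𝓐) (h : c' ≤ p.c) : Cond W 𝓐 where
  c := c'
  q := p.q
  side e he := side_of_le h (p.side e he)
  steep := p.steep

lemma withChain_le (p : Cond W 𝓐) (c' : Ch W 𝓐) (h : c' ≤ p.c) : p.withChain c' h ≤ p :=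
  ⟨h, Finset.Subset.refl _⟩

end Cond

/-- The tuple of entries described by a tuple of reals and a tuple of colours. -/
noncomputable def img {L : ℕ} (κ : Fin L → ℕ × ℕ) (y : Fin (L + L) → ℝ) : Finset Entry :=
  Finset.univ.image (fun i : Fin L => ((y (Fin.castAdd L i), y (Fin.natAdd L i), κ i) : Entry))

lemma mem_img {L : ℕ} {κ : Fin L → ℕ × ℕ} {y : Fin (L + L) → ℝ} {e : Entry} :
    e ∈ img κ y ↔ ∃ i : Fin L, e = (y (Fin.castAdd L i), y (Fin.natAdd L i), κ i) := by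
  simp [img, eq_comm]

/-- A task: number of new entries, old entries, colours of the new entries, an open set. -/
abbrev Task : Type := Σ L : ℕ, Finset Entry × (Fin L → ℕ × ℕ) × Set (Fin (L + L) → ℝ)

/-- The tasks over a set of reals. -/
def Tasks (N : Set ℝ) : Set Task :=
  {τ | (∀ e ∈ τ.2.1, e.1 ∈ N ∧ e.2.1 ∈ N) ∧
    τ.2.2.2 ∈ TopologicalSpace.countableBasis (Fin (τ.1 + τ.1) → ℝ)}

lemma countable_finsets {α : Type} {A : Set α} (hA : A.Countable) :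
    {s : Finset α | ∀ x ∈ s, x ∈ A}.Countable := by
  classical
  have : Countable A := hA.to_subtype
  refine (Set.countable_range (fun s : Finset A => s.map (Function.Embedding.subtype _))).mono ?_
  intro s hs
  refine ⟨s.subtype (· ∈ A), ?_⟩
  ext x
  simp only [Finset.mem_map, Finset.mem_subtype, Function.Embedding.coe_subtype, Subtype.exists,
    exists_and_right, exists_eq_right]
  constructor
  · rintro ⟨_, h⟩; exact h
  · intro h; exact ⟨hs x h, h⟩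

lemma Tasks_countable {N : Set ℝ} (hN : N.Countable) : (Tasks N).Countable := by
  have h : Tasks N ⊆ ⋃ L : ℕ, (fun t : Finset Entry × (Fin L → ℕ × ℕ) × Set (Fin (L + L) → ℝ) =>
      (⟨L, t⟩ : Task)) '' ({s : Finset Entry | ∀ x ∈ s, x ∈ {e : Entry | e.1 ∈ N ∧ e.2.1 ∈ N}} ×ˢ
        ((Set.univ : Set (Fin L → ℕ × ℕ)) ×ˢ
          TopologicalSpace.countableBasis (Fin (L + L) → ℝ))) := by
    rintro ⟨L, s, κ, O⟩ ⟨h1, h2⟩
    exact Set.mem_iUnion.2 ⟨L, (s, κ, O), ⟨h1, Set.mem_univ _, h2⟩, rfl⟩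
  refine Set.Countable.mono h (Set.countable_iUnion (fun L => Set.Countable.image ?_ _))
  refine Set.Countable.prod (countable_finsets ?_)
    (Set.Countable.prod Set.countable_univ (TopologicalSpace.countable_countableBasis _))
  have : {e : Entry | e.1 ∈ N ∧ e.2.1 ∈ N} = N ×ˢ (N ×ˢ (Set.univ : Set (ℕ × ℕ))) := by
    ext ⟨a, b, n, k⟩
    simp
  rw [this]
  exact hN.prod (hN.prod Set.countable_univ)

section Ext

variable {W : Type} [LinearOrder W] [hW : OmegaOne W] {𝓐 : Set (ℝ → ℝ)}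

/-- The properties of the extension associated with a task. -/
def ExtSpec (p : Cond W 𝓐) (D : Set (Cond W 𝓐)) (τ : Task) (p' : Cond W 𝓐)
    (T : Set (Cond W 𝓐 × (Fin (τ.1 + τ.1) → ℝ))) : Prop :=
  p' ≤ p ∧ p'.q = p.q ∧ T.Countable ∧
  (∀ t ∈ T, t.1 ∈ D ∧ t.2 ∈ τ.2.2.2 ∧ t.1.q = τ.2.1 ∪ img τ.2.2.1 t.2 ∧ p'.c ≤ t.1.c) ∧
  (∀ s ∈ D, s.c ≤ p'.c → ∀ y ∈ τ.2.2.2, s.q = τ.2.1 ∪ img τ.2.2.1 y →
    y ∈ closure (Prod.snd '' T)) ∧
  (∀ g ∈ skolFamily (closure (Prod.snd '' T)), ∃ g' ∈ clone p'.c.f p'.c.α, g'.1 = g)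

lemma exists_extSpec (h𝓐 : ∀ φ ∈ 𝓐, Measurable φ) (p : Cond W 𝓐) (D : Set (Cond W 𝓐))
    (τ : Task) : ∃ p' T, ExtSpec p D τ p' T := by
  classical
  have : Nonempty (Cond W 𝓐) := ⟨p⟩
  obtain ⟨L, r₀, κ, O⟩ := τ
  -- the tuples forced by a chain `d`
  let A : Ch W 𝓐 → Set (Fin (L + L) → ℝ) := fun d =>
    {y | y ∈ O ∧ ∃ s ∈ D, s.q = r₀ ∪ img κ y ∧ d ≤ s.c}
  have hAmono : ∀ d d' : Ch W 𝓐, d' ≤ d → A d ⊆ A d' := by
    rintro d d' hd y ⟨hy, s, hs, hq, hc⟩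
    exact ⟨hy, s, hs, hq, hd.trans hc⟩
  obtain ⟨b, hb⟩ := (TopologicalSpace.countable_countableBasis (Fin (L + L) → ℝ)).exists_eq_range
    (by
      obtain ⟨o, ho, _⟩ := (TopologicalSpace.isBasis_countableBasis
        (Fin (L + L) → ℝ)).exists_subset_of_mem_open (Set.mem_univ (0 : Fin (L + L) → ℝ))
        isOpen_univ
      exact ⟨o, ho⟩)
  have hstep : ∀ (n : ℕ) (d : Ch W 𝓐), ∃ d' ≤ d,
      (∃ d'' ≤ d, (A d'' ∩ b n).Nonempty) → (A d' ∩ b n).Nonempty := by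
    intro n d
    by_cases h : ∃ d'' ≤ d, (A d'' ∩ b n).Nonempty
    · obtain ⟨d'', h1, h2⟩ := h
      exact ⟨d'', h1, fun _ => h2⟩
    · exact ⟨d, le_refl d, fun h' => absurd h' h⟩
  choose step hstep1 hstep2 using hstep
  let s : ℕ → Ch W 𝓐 := fun n => Nat.rec p.c (fun i d => step i d) n
  have hs : ∀ n, s (n + 1) = step n (s n) := fun n => rfl
  have hanti : Antitone s := antitone_nat_of_succ_le (fun n => by rw [hs]; exact hstep1 _ _)
  obtain ⟨d, hd, _⟩ := Ch.exists_union s hanti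
  have hclos : ∀ d' ≤ d, A d' ⊆ closure (A d) := by
    intro d' hd' y hy
    rw [(TopologicalSpace.isBasis_countableBasis _).mem_closure_iff]
    intro o ho hyo
    rw [hb] at ho
    obtain ⟨n, rfl⟩ := ho
    have h1 := hstep2 n (s n) ⟨d', hd'.trans (hd n), y, hy, hyo⟩
    rw [← hs] at h1
    obtain ⟨y', hy', hy'b⟩ := h1
    exact ⟨y', hy'b, hAmono _ _ (hd (n + 1)) hy'⟩
  obtain ⟨Y, hYA, hYc, hYd⟩ :=
    (TopologicalSpace.IsSeparable.of_separableSpace (A d)).exists_countable_dense_subset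
  have hwit : ∀ y ∈ Y, ∃ s ∈ D, s.q = r₀ ∪ img κ y ∧ d ≤ s.c := fun y hy => (hYA hy).2
  choose! wit hwit1 hwit2 hwit3 using hwit
  let T : Set (Cond W 𝓐 × (Fin (L + L) → ℝ)) := (fun y => (wit y, y)) '' Y
  have hTY : Prod.snd '' T = Y := by
    ext y
    constructor
    · rintro ⟨_, ⟨y', hy', rfl⟩, rfl⟩
      exact hy'
    · intro hy
      exact ⟨_, ⟨y, hy, rfl⟩, rfl⟩
  -- the Skolem functions
  obtain ⟨gs, hgs⟩ : ∃ gs : ℕ → U, ∀ g ∈ skolFamily (closure Y), ∃ n, (gs n).1 = g := by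
    have hc : {g : U | g.1 ∈ skolFamily (closure Y)}.Countable :=
      (skolFamily_countable (closure Y)).preimage Subtype.val_injective
    obtain ⟨gs, hgs⟩ := (hc.union (Set.countable_singleton (U.proj 0))).exists_eq_range
      ⟨_, Or.inr rfl⟩
    refine ⟨gs, fun g hg => ?_⟩
    have : (⟨g, skolFamily_meas isClosed_closure hg⟩ : U) ∈ Set.range gs := by
      rw [← hgs]; exact Or.inl hg
    obtain ⟨n, hn⟩ := this
    exact ⟨n, by rw [hn]⟩
  obtain ⟨d', hd', hlt, hfn⟩ := Ch.exists_extend h𝓐 d gs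
  have hd'p : d' ≤ p.c := hd'.trans (hd 0)
  refine ⟨p.withChain d' hd'p, T, p.withChain_le d' hd'p, rfl, hYc.image _, ?_, ?_, ?_⟩
  · rintro _ ⟨y, hy, rfl⟩
    exact ⟨hwit1 y hy, (hYA hy).1, hwit2 y hy, hd'.trans (hwit3 y hy)⟩
  · intro s hs hsc y hy hq
    rw [hTY]
    have h1 : y ∈ A s.c := ⟨hy, s, hs, hq, le_refl _⟩
    have h2 := hclos s.c (hsc.trans hd') h1
    exact closure_minimal hYd isClosed_closure h2
  · intro g hg
    rw [hTY] at hg
    obtain ⟨n, hn⟩ := hgs g hg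
    refine ⟨gs n, ?_, hn⟩
    have := fun_mem_clone d'.f hlt n
    rw [hfn] at this
    exact this

end Ext

end Pool.Agent.Wetzel
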