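import Mathlib
import Pool.Agent.Wetzel.Poset

/-!
# Properness of the forcing notion
-/

namespace Pool.Agent.Wetzel

open Set Cl

variable {W : Type} [LinearOrder W] [hW : OmegaOne W] {𝓐 : Set (ℝ → ℝ)}

omit hW in
/-- The amalgamation step: two conditions with the same old part. -/
lemma exists_common {r s : Cond W 𝓐} (hc : r.c ≤ s.c) {L : ℕ} {r₀ : Finset Entry}
    {κ : Fin L → ℕ × ℕ} {x y : Fin (L + L) → ℝ} (hr : r.q = r₀ ∪ img κ x)
    (hs : s.q = r₀ ∪ img κ y)
    (h : ∀ i j : Fin L, κ i = κ j →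
      ((κ i).1 : ℝ) * |x (Fin.castAdd L i) - y (Fin.castAdd L j)| <
        |x (Fin.natAdd L i) - y (Fin.natAdd L j)|) :
    Compatible r s := by
  classical
  have key : ∀ e ∈ r.q, ∀ e' ∈ s.q, e.2.2 = e'.2.2 → e ≠ e' →
      (e.2.2.1 : ℝ) * |e.1 - e'.1| < |e.2.1 - e'.2.1| := by
    intro e he e' he' hee hne
    by_cases h1 : e ∈ r₀
    · exact s.steep e (by rw [hs]; exact Finset.mem_union_left _ h1) e' he' hee hne
    by_cases h2 : e' ∈ r₀
    · exact r.steep e he e' (by rw [hr]; exact Finset.mem_union_left _ h2) hee hne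
    rw [hr] at he
    rw [hs] at he'
    obtain ⟨i, rfl⟩ := mem_img.1 ((Finset.mem_union.1 he).resolve_left h1)
    obtain ⟨j, rfl⟩ := mem_img.1 ((Finset.mem_union.1 he').resolve_left h2)
    exact h i j hee
  refine ⟨⟨r.c, r.q ∪ s.q, ?_, ?_⟩, ⟨le_refl _, Finset.subset_union_left⟩,
    ⟨hc, Finset.subset_union_right⟩⟩
  · intro e he
    rcases Finset.mem_union.1 he with he | he
    · exact r.side e he
    · exact Cond.side_of_le hc (s.side e he)
  · intro e he e' he' hee hne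
    rcases Finset.mem_union.1 he with he | he <;> rcases Finset.mem_union.1 he' with he' | he'
    · exact r.steep e he e' he' hee hne
    · exact key e he e' he' hee hne
    · have := key e' he' e he hee.symm hne.symm
      rw [abs_sub_comm e.1, abs_sub_comm e.2.1, hee]
      exact this
    · exact s.steep e he e' he' hee hne

omit hW in
/-- The heart of the properness proof: meeting a dense set below the limit condition. -/
lemma exists_in_model {p' : Cond W 𝓐} {d : Ch W 𝓐} (hd : d ≤ p'.c) {r : Cond W 𝓐}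
    (hr : r.c ≤ d) {D : Set (Cond W 𝓐)} (hrD : r ∈ D) {p : Cond W 𝓐} {L : ℕ}
    {r₀ : Finset Entry} {κ : Fin L → ℕ × ℕ} {O : Set (Fin (L + L) → ℝ)} (hO : IsOpen O)
    {T : Set (Cond W 𝓐 × (Fin (L + L) → ℝ))} (hspec : ExtSpec p D ⟨L, r₀, κ, O⟩ p' T)
    {x : Fin (L + L) → ℝ} (hx : x ∈ O) (hrq : r.q = r₀ ∪ img κ x)
    (hnew : ∀ i : Fin L, x (Fin.natAdd L i) ∉ reals d.f d.α)
    (hOs : ∀ y ∈ O, ∀ i j : Fin L, i ≠ j → κ i = κ j →
      ((κ i).1 : ℝ) * |x (Fin.castAdd L i) - y (Fin.castAdd L j)| <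
        |x (Fin.natAdd L i) - y (Fin.natAdd L j)|) :
    ∃ t ∈ T, Compatible r t.1 := by
  classical
  obtain ⟨hp', hq', hTc, hT, hcl, hsk⟩ := hspec
  have hxK : x ∈ closure (Prod.snd '' T) := hcl r hrD (hr.trans hd) x hx hrq
  -- the indices of the generic reals
  have hside : ∀ i : Fin L, ∃ ξ < r.c.α, (r.c.f ξ).2 = x (Fin.castAdd L i) ∧
      x (Fin.natAdd L i) ∉ realsOver r.c.f ξ (x (Fin.castAdd L i)) := by
    intro i
    exact r.side (x (Fin.castAdd L i), x (Fin.natAdd L i), κ i) (by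
      rw [hrq]; exact Finset.mem_union_right _ (mem_img.2 ⟨i, rfl⟩))
  choose ξ hξ1 hξ2 hξ3 using hside
  have hclone : clone r.c.f d.α = clone d.f d.α := Ch.clone_eq hr (le_refl _)
  have hreals : reals r.c.f d.α = reals d.f d.α := by rw [reals, reals, hclone]
  let S : W → Set ℝ := fun η => if η < d.α then reals r.c.f d.α
    else realsOver r.c.f η (r.c.f η).2
  have hS1 : ∀ η, η < d.α → S η = reals r.c.f d.α := fun η h => if_pos h
  have hS2 : ∀ η, ¬ η < d.α → S η = realsOver r.c.f η (r.c.f η).2 := fun η h => if_neg h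
  have hmono : Monotone S := by
    intro η ζ hηζ
    by_cases h2 : ζ < d.α
    · rw [hS1 η (hηζ.trans_lt h2), hS1 ζ h2]
    · by_cases h1 : η < d.α
      · rw [hS1 η h1, hS2 ζ h2]
        exact (reals_mono _ (not_lt.1 h2)).trans (reals_subset_realsOver _ _ _)
      · rw [hS2 η h1, hS2 ζ h2]
        rcases hηζ.lt_or_eq with h | h
        · exact (realsOver_subset_reals _ h).trans (reals_subset_realsOver _ _ _)
        · rw [h]
  let I : Finset W := Finset.univ.image ξ
  have h0 : ∀ η ∈ I, (0 : ℝ) ∈ S η := by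
    intro η _
    by_cases h : η < d.α
    · rw [hS1 η h]; exact zero_mem_reals _ _
    · rw [hS2 η h]; exact zero_mem_realsOver _ _ _
  have hSc : ∀ η ∈ I, ∀ g ∈ skolFamily (closure (Prod.snd '' T)), ClosedUnder (S η) g := by
    intro η _ g hg
    obtain ⟨g', hg', rfl⟩ := hsk g hg
    have hg'' : g' ∈ clone r.c.f d.α := by
      rw [← Ch.clone_eq (hr.trans hd) (le_refl _)] at hg'
      exact clone_mono _ hd.1 hg'
    by_cases h : η < d.α
    · rw [hS1 η h]; exact reals_closedUnder _ _ hg''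
    · rw [hS2 η h]; exact realsOver_closedUnder _ _ _ (clone_mono _ (not_lt.1 h) hg'')
  have hsep : ∀ i : Fin L, ∃ η ∈ I, x (Fin.castAdd L i) ∈ S η ∧ x (Fin.natAdd L i) ∉ S η := by
    intro i
    refine ⟨ξ i, Finset.mem_image_of_mem _ (Finset.mem_univ i), ?_⟩
    by_cases h : ξ i < d.α
    · rw [hS1 _ h]
      refine ⟨by rw [← hξ2 i]; exact mem_reals_of_lt _ h, ?_⟩
      rw [hreals]
      exact hnew i
    · rw [hS2 _ h, hξ2 i]
      exact ⟨self_mem_realsOver _ _ _, hξ3 i⟩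
  let c : ℝ := ∑ i : Fin L, ((κ i).1 : ℝ)
  have hc : 0 ≤ c := Finset.sum_nonneg (fun i _ => Nat.cast_nonneg _)
  have hκc : ∀ i : Fin L, ((κ i).1 : ℝ) ≤ c := fun i =>
    Finset.single_le_sum (f := fun i : Fin L => ((κ i).1 : ℝ))
      (fun j _ => Nat.cast_nonneg _) (Finset.mem_univ i)
  obtain ⟨ε, hε, hball⟩ := Metric.isOpen_iff.1 hO x hx
  obtain ⟨y, hyK, hyε, _, hyE⟩ := separation isClosed_closure S hmono I h0 hSc x hxK
    (Finset.univ.image (fun i : Fin L => (Fin.castAdd L i, Fin.natAdd L i))) c hc hε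
  have hyO : y ∈ O := by
    apply hball
    rw [Metric.mem_ball, dist_pi_lt_iff hε]
    intro i
    rw [Real.dist_eq]
    exact hyε i
  have hyE' : ∀ i : Fin L, c * |y (Fin.castAdd L i) - x (Fin.castAdd L i)| <
      |y (Fin.natAdd L i) - x (Fin.natAdd L i)| := by
    intro i
    exact hyE (Fin.castAdd L i, Fin.natAdd L i)
      (Finset.mem_image_of_mem (fun i : Fin L => (Fin.castAdd L i, Fin.natAdd L i))
        (Finset.mem_univ i)) (hsep i)
  have hV : IsOpen (O ∩ {y : Fin (L + L) → ℝ | ∀ i : Fin L,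
      c * |y (Fin.castAdd L i) - x (Fin.castAdd L i)| <
        |y (Fin.natAdd L i) - x (Fin.natAdd L i)|}) := by
    refine hO.inter ?_
    simp only [Set.ofPred_forall]
    exact isOpen_iInter_of_finite (fun i => isOpen_lt (by fun_prop) (by fun_prop))
  obtain ⟨y', hy'V, ⟨t, htT, rfl⟩⟩ := mem_closure_iff.1 hyK _ hV ⟨hyO, hyE'⟩
  refine ⟨t, htT, ?_⟩
  obtain ⟨_, ht2, ht3, ht4⟩ := hT t htT
  refine exists_common ((hr.trans hd).trans ht4) hrq ht3 ?_
  intro i j hij
  by_cases h : i = j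
  · subst h
    have h1 := hy'V.2 i
    rw [abs_sub_comm (x _), abs_sub_comm (x (Fin.natAdd L i))]
    exact (mul_le_mul_of_nonneg_right (hκc i) (abs_nonneg _)).trans_lt h1
  · exact hOs _ hy'V.1 i j h hij

variable (W 𝓐) in
/-- The forcing notion is proper. -/
theorem isProper_cond (h𝓐 : ∀ φ ∈ 𝓐, Measurable φ) : IsProper (Cond W 𝓐) := by
  classical
  choose Ext T hspec using (exists_extSpec (W := W) h𝓐)
  refine isProper_of_closure Task
    (fun l => match l with
      | [Sum.inl (Sum.inl p)] => Sum.inr '' Tasks (reals p.c.f p.c.α)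
      | [Sum.inl (Sum.inl p), Sum.inl (Sum.inr D), Sum.inr τ] =>
        {Sum.inl (Sum.inl (Ext p D τ))} ∪ (fun t => Sum.inl (Sum.inl t.1)) '' (T p D τ)
      | _ => ∅) ?_ ?_
  · intro l
    split
    · exact (Tasks_countable (reals_countable _ _)).image _
    · exact (Set.countable_singleton _).union ((hspec _ _ _).2.2.1.image _)
    · exact Set.countable_empty
  · intro M hMc hM p₀ hp₀
    have hM1 : ∀ p : Cond W 𝓐, Sum.inl (Sum.inl p) ∈ M → ∀ τ ∈ Tasks (reals p.c.f p.c.α),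
        Sum.inr τ ∈ M := by
      intro p hp τ hτ
      exact hM [Sum.inl (Sum.inl p)] (by simpa using hp) (Set.mem_image_of_mem _ hτ)
    have hM2 : ∀ (p : Cond W 𝓐) (D : Set (Cond W 𝓐)) (τ : Task), Sum.inl (Sum.inl p) ∈ M →
        Sum.inl (Sum.inr D) ∈ M → Sum.inr τ ∈ M → Sum.inl (Sum.inl (Ext p D τ)) ∈ M ∧
          ∀ t ∈ T p D τ, Sum.inl (Sum.inl t.1) ∈ M := by
      intro p D τ hp hD hτ
      have h := hM [Sum.inl (Sum.inl p), Sum.inl (Sum.inr D), Sum.inr τ] (by
        intro x hx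
        simp only [List.mem_cons, List.not_mem_nil, or_false] at hx
        rcases hx with rfl | rfl | rfl
        · exact hp
        · exact hD
        · exact hτ)
      exact ⟨h (Or.inl rfl), fun t ht => h (Or.inr (Set.mem_image_of_mem _ ht))⟩
    let Q : Set (Set (Cond W 𝓐) × Task) := {x | Sum.inl (Sum.inr x.1) ∈ M ∧ Sum.inr x.2 ∈ M}
    have hQc : Q.Countable := by
      have h1 : {D : Set (Cond W 𝓐) | Sum.inl (Sum.inr D) ∈ M}.Countable :=
        hMc.preimage (f := fun D : Set (Cond W 𝓐) =>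
          (Sum.inl (Sum.inr D) : (Cond W 𝓐 ⊕ Set (Cond W 𝓐)) ⊕ Task))
          (Sum.inl_injective.comp Sum.inr_injective)
      have h2 : {τ : Task | (Sum.inr τ : (Cond W 𝓐 ⊕ Set (Cond W 𝓐)) ⊕ Task) ∈ M}.Countable :=
        hMc.preimage Sum.inr_injective
      exact (h1.prod h2).mono (fun x hx => hx)
    rcases Set.eq_empty_or_nonempty Q with hQe | hQne
    · refine ⟨p₀, le_refl _, ?_⟩
      intro D hD _ _ _
      exfalso
      obtain ⟨O, hO, _⟩ := (TopologicalSpace.isBasis_countableBasis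
        (Fin (0 + 0) → ℝ)).exists_subset_of_mem_open (Set.mem_univ (0 : Fin (0 + 0) → ℝ))
        isOpen_univ
      have hτ : (⟨0, ∅, (fun i => i.elim0), O⟩ : Task) ∈ Tasks (reals p₀.c.f p₀.c.α) :=
        ⟨by simp, hO⟩
      have : ((D, ⟨0, ∅, (fun i => i.elim0), O⟩) : Set (Cond W 𝓐) × Task) ∈ Q :=
        ⟨hD, hM1 p₀ hp₀ _ hτ⟩
      rw [hQe] at this
      exact this
    obtain ⟨e, he⟩ := hQc.exists_eq_range hQne
    have heQ : ∀ n, e n ∈ Q := fun n => by rw [he]; exact ⟨n, rfl⟩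
    let p : ℕ → Cond W 𝓐 := fun n => Nat.rec p₀ (fun i q => Ext q (e i).1 (e i).2) n
    have hp : ∀ n, p (n + 1) = Ext (p n) (e n).1 (e n).2 := fun n => rfl
    have hpM : ∀ n, Sum.inl (Sum.inl (p n)) ∈ M := by
      intro n
      induction n with
      | zero => exact hp₀
      | succ n ih =>
        rw [hp]
        exact (hM2 _ _ _ ih (heQ n).1 (heQ n).2).1
    have hanti : Antitone p := antitone_nat_of_succ_le (fun n => by
      rw [hp]; exact (hspec _ _ _).1)
    obtain ⟨d, hd, hdlim⟩ := Ch.exists_union (fun n => (p n).c) (fun m n hmn => (hanti hmn).1)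
    refine ⟨p₀.withChain d (hd 0), p₀.withChain_le d (hd 0), ?_⟩
    intro D hDM hD r hr
    obtain ⟨r', hr'D, hr'r⟩ := hD r
    have hr'c : r'.c ≤ d := hr'r.1.trans hr.1
    -- the reals of the limit chain appear at finite stages
    have hup : Monotone (fun n => reals (p n).c.f (p n).c.α) := by
      intro m n hmn
      have h1 := (hanti hmn).1
      rintro t ⟨g, hg, rfl⟩
      refine ⟨g, ?_, rfl⟩
      rw [← Ch.clone_eq h1 (le_refl _)] at hg
      exact clone_mono _ h1.1 hg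
    have hNn : ∀ t ∈ reals d.f d.α, ∃ n, t ∈ reals (p n).c.f (p n).c.α := by
      rintro t ⟨g, hg, rfl⟩
      obtain ⟨n, hn⟩ := exists_mem_clone_of_lub d.f (a := fun n => (p n).c.α)
        (fun m n hmn => (hanti hmn).1.1) hdlim hg
      exact ⟨n, g, by rw [← Ch.clone_eq (hd n) (le_refl _)]; exact hn, rfl⟩
    have hold : ∀ e ∈ r'.q, e.2.1 ∈ reals d.f d.α → e.1 ∈ reals d.f d.α := by
      intro e he hw
      obtain ⟨ξ, hξ, h1, h2⟩ := r'.side e he
      have hlt : ξ < d.α := by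
        by_contra hcon
        apply h2
        apply reals_subset_realsOver
        apply reals_mono _ (not_lt.1 hcon)
        rw [reals, Ch.clone_eq hr'c (le_refl _)]
        exact hw
      rw [← h1, hr'c.2 ξ hlt]
      exact mem_reals_of_lt _ hlt
    let r₀ : Finset Entry := r'.q.filter (fun e => e.2.1 ∈ reals d.f d.α)
    let r₁ : Finset Entry := r'.q.filter (fun e => ¬ e.2.1 ∈ reals d.f d.α)
    have hr₀N : ∀ e ∈ r₀, e.1 ∈ reals d.f d.α ∧ e.2.1 ∈ reals d.f d.α := by
      intro e he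
      obtain ⟨h1, h2⟩ := Finset.mem_filter.1 he
      exact ⟨hold e h1 h2, h2⟩
    have hstage : ∃ n, ∀ e ∈ r₀, e.1 ∈ reals (p n).c.f (p n).c.α ∧
        e.2.1 ∈ reals (p n).c.f (p n).c.α := by
      have h1 : ∀ e ∈ r₀, ∀ᶠ n in Filter.atTop, e.1 ∈ reals (p n).c.f (p n).c.α ∧
          e.2.1 ∈ reals (p n).c.f (p n).c.α := by
        intro e he
        obtain ⟨n₁, hn₁⟩ := hNn _ (hr₀N e he).1
        obtain ⟨n₂, hn₂⟩ := hNn _ (hr₀N e he).2
        filter_upwards [Filter.eventually_ge_atTop n₁, Filter.eventually_ge_atTop n₂] with n h1 h2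
        exact ⟨hup h1 hn₁, hup h2 hn₂⟩
      exact ((Filter.eventually_all_finset r₀).2 h1).exists
    obtain ⟨n₀, hn₀⟩ := hstage
    -- enumerate the new part
    let L : ℕ := r₁.card
    let eqv : Fin L ≃ r₁ := r₁.equivFin.symm
    let κ : Fin L → ℕ × ℕ := fun i => (eqv i).1.2.2
    let x : Fin (L + L) → ℝ := Fin.append (fun i => (eqv i).1.1) (fun i => (eqv i).1.2.1)
    have hx1 : ∀ i : Fin L, x (Fin.castAdd L i) = (eqv i).1.1 := fun i => Fin.append_left _ _ i
    have hx2 : ∀ i : Fin L, x (Fin.natAdd L i) = (eqv i).1.2.1 := fun i => Fin.append_right _ _ i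
    have himg : img κ x = r₁ := by
      ext e
      rw [mem_img]
      constructor
      · rintro ⟨i, rfl⟩
        rw [hx1, hx2]
        exact (eqv i).2
      · intro he
        obtain ⟨i, hi⟩ := eqv.surjective ⟨e, he⟩
        refine ⟨i, ?_⟩
        rw [hx1, hx2]
        simp only [κ, hi]
    have hrq : r'.q = r₀ ∪ img κ x := by
      rw [himg]
      exact (Finset.filter_union_filter_not_eq _ _).symm
    have hnew : ∀ i : Fin L, x (Fin.natAdd L i) ∉ reals d.f d.α := by
      intro i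
      rw [hx2]
      exact (Finset.mem_filter.1 (eqv i).2).2
    have hinj : ∀ i j : Fin L, i ≠ j → (eqv i).1 ≠ (eqv j).1 := by
      intro i j hij h
      exact hij (eqv.injective (Subtype.ext h))
    have hopen : IsOpen {y : Fin (L + L) → ℝ | ∀ i j : Fin L, i ≠ j → κ i = κ j →
        ((κ i).1 : ℝ) * |x (Fin.castAdd L i) - y (Fin.castAdd L j)| <
          |x (Fin.natAdd L i) - y (Fin.natAdd L j)|} := by
      simp only [Set.ofPred_forall]
      refine isOpen_iInter_of_finite (fun i => isOpen_iInter_of_finite (fun j =>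
        isOpen_iInter_of_finite (fun _ => isOpen_iInter_of_finite (fun _ => ?_))))
      exact isOpen_lt (by fun_prop) (by fun_prop)
    have hxopen : x ∈ {y : Fin (L + L) → ℝ | ∀ i j : Fin L, i ≠ j → κ i = κ j →
        ((κ i).1 : ℝ) * |x (Fin.castAdd L i) - y (Fin.castAdd L j)| <
          |x (Fin.natAdd L i) - y (Fin.natAdd L j)|} := by
      intro i j hij hκ
      rw [hx1, hx1, hx2, hx2]
      exact r'.steep _ (Finset.mem_filter.1 (eqv i).2).1 _ (Finset.mem_filter.1 (eqv j).2).1 hκ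
        (hinj i j hij)
    obtain ⟨O, hOb, hxO, hOsub⟩ := (TopologicalSpace.isBasis_countableBasis
      (Fin (L + L) → ℝ)).exists_subset_of_mem_open hxopen hopen
    have hτ : (⟨L, r₀, κ, O⟩ : Task) ∈ Tasks (reals (p n₀).c.f (p n₀).c.α) := ⟨hn₀, hOb⟩
    have hQ : ((D, ⟨L, r₀, κ, O⟩) : Set (Cond W 𝓐) × Task) ∈ Q := ⟨hDM, hM1 _ (hpM n₀) _ hτ⟩
    rw [he] at hQ
    obtain ⟨k, hk⟩ := hQ
    have hspec' := hspec (p k) D ⟨L, r₀, κ, O⟩
    have hpk : p (k + 1) = Ext (p k) D ⟨L, r₀, κ, O⟩ := by rw [hp, hk]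
    rw [← hpk] at hspec'
    obtain ⟨t, htT, hcomp⟩ := exists_in_model (hd (k + 1)) hr'c hr'D
      ((TopologicalSpace.isBasis_countableBasis _).isOpen hOb) hspec' hxO hrq hnew
      (fun y hy => hOsub hy)
    refine ⟨t.1, (hspec'.2.2.2.1 t htT).1, ?_, ?_⟩
    · exact (hM2 _ _ _ (hpM k) hDM (hM1 _ (hpM n₀) _ hτ)).2 t htT
    · obtain ⟨u, hu1, hu2⟩ := hcomp
      exact ⟨u, hu1.trans hr'r, hu2⟩

end Pool.Agent.Wetzel
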