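import Mathlib
import Pool.Agent.Wetzel.Proper

/-!
# Applying the forcing axiom
-/

namespace Pool.Agent.Wetzel

open Set Cl Cardinal

variable {W : Type} [LinearOrder W] [hW : OmegaOne W] {𝓐 : Set (ℝ → ℝ)}

/-- The dense sets used. -/
def denseSet (𝓐 : Set (ℝ → ℝ)) (d : ℝ → W → ℝ) (i : W × W × ℕ) : Set (Cond W 𝓐) :=
  {p | i.1 < p.c.α ∧ (d (p.c.f i.1).2 i.2.1 ∈ realsOver p.c.f i.1 (p.c.f i.1).2 ∨
    ∃ k, (((p.c.f i.1).2, d (p.c.f i.1).2 i.2.1, i.2.2, k) : Entry) ∈ p.q)}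

lemma isDense_denseSet (h𝓐 : ∀ φ ∈ 𝓐, Measurable φ) (d : ℝ → W → ℝ) (i : W × W × ℕ) :
    IsDense (denseSet 𝓐 d i) := by
  classical
  obtain ⟨ξ, η, n⟩ := i
  intro p
  obtain ⟨c', hc', hξ⟩ := Ch.exists_long h𝓐 ξ p.c
  by_cases hmem : d (c'.f ξ).2 η ∈ realsOver c'.f ξ (c'.f ξ).2
  · exact ⟨p.withChain c' hc', ⟨hξ, Or.inl hmem⟩, p.withChain_le c' hc'⟩
  · -- choose a fresh colour
    obtain ⟨k, hk⟩ : ∃ k : ℕ, ∀ e ∈ p.q, e.2.2.2 < k := by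
      refine ⟨(p.q.sup (fun e => e.2.2.2)) + 1, fun e he => ?_⟩
      exact Nat.lt_succ_of_le (Finset.le_sup (f := fun e : Entry => e.2.2.2) he)
    let e₀ : Entry := ((c'.f ξ).2, d (c'.f ξ).2 η, n, k)
    have hfresh : ∀ e ∈ p.q, e.2.2 ≠ e₀.2.2 := by
      intro e he h
      have h1 : e.2.2.2 = k := by rw [h]
      exact absurd (hk e he) (by rw [h1]; exact lt_irrefl _)
    refine ⟨⟨c', insert e₀ p.q, ?_, ?_⟩, ⟨hξ, Or.inr ⟨k, Finset.mem_insert_self _ _⟩⟩,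
      ⟨hc', Finset.subset_insert _ _⟩⟩
    · intro e he
      rcases Finset.mem_insert.1 he with rfl | he
      · exact ⟨ξ, hξ, rfl, hmem⟩
      · exact Cond.side_of_le hc' (p.side e he)
    · intro e he e' he' hee hne
      rcases Finset.mem_insert.1 he with rfl | he <;> rcases Finset.mem_insert.1 he' with rfl | he'
      · exact absurd rfl hne
      · exact absurd hee.symm (hfresh e' he')
      · exact absurd hee (hfresh e he)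
      · exact p.steep e he e' he' hee hne

/-- The generic object: an `ω₁`-sequence of nodes, with colourings whose colour classes are
steep. -/
lemma exists_limit (hPFA : PFA) (hcard : #W ≤ ℵ₁) (h𝓐 : ∀ φ ∈ 𝓐, Measurable φ)
    (d : ℝ → W → ℝ) :
    ∃ f : W → Node, (∀ ξ, Generic 𝓐 (clone f ξ) (f ξ).2) ∧
      ∀ n : ℕ, ∃ col : W → W → ℕ, ∀ ξ η ξ' η',
        d (f ξ).2 η ∉ realsOver f ξ (f ξ).2 → d (f ξ').2 η' ∉ realsOver f ξ' (f ξ').2 →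
        col ξ η = col ξ' η' → (f ξ).2 ≠ (f ξ').2 →
        (n : ℝ) * |(f ξ).2 - (f ξ').2| < |d (f ξ).2 η - d (f ξ').2 η'| := by
  classical
  have hne : Nonempty (Cond W 𝓐) := by
    obtain ⟨c⟩ := Ch.nonempty (W := W) (𝓐 := 𝓐)
    exact ⟨⟨c, ∅, by simp, by simp⟩⟩
  obtain ⟨G, ⟨_, _, hGdir⟩, hG⟩ := hPFA (Cond W 𝓐) (isProper_cond W 𝓐 h𝓐)
    (Set.range (denseSet 𝓐 d)) (by
      refine mk_range_le.trans ?_
      have h1 : ℵ₀ ≤ ℵ₁ := aleph0_le_aleph 1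
      simp only [mk_prod, lift_id, mk_nat]
      calc #W * (#W * ℵ₀) ≤ ℵ₁ * (ℵ₁ * ℵ₁) := by gcongr
        _ = ℵ₁ := by rw [mul_eq_self h1, mul_eq_self h1]) (by
      rintro _ ⟨i, rfl⟩
      exact isDense_denseSet h𝓐 d i)
  have hG' : ∀ i : W × W × ℕ, ∃ p ∈ G, p ∈ denseSet 𝓐 d i := by
    intro i
    obtain ⟨p, h1, h2⟩ := hG _ ⟨i, rfl⟩
    exact ⟨p, h1, h2⟩
  choose pp hpG hpd using hG'
  let f : W → Node := fun ξ => (pp (ξ, ξ, 0)).c.f ξ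
  have hf : ∀ p ∈ G, ∀ ξ < p.c.α, f ξ = p.c.f ξ := by
    intro p hp ξ hξ
    obtain ⟨t, _, ht1, ht2⟩ := hGdir _ (hpG (ξ, ξ, 0)) p hp
    rw [← ht2.1.2 ξ hξ, ht1.1.2 ξ (hpd (ξ, ξ, 0)).1]
  have hcl : ∀ p ∈ G, ∀ ξ < p.c.α, clone f ξ = clone p.c.f ξ := fun p hp ξ hξ =>
    clone_congr (fun ζ hζ => hf p hp ζ (hζ.trans hξ))
  have hro : ∀ p ∈ G, ∀ ξ < p.c.α, ∀ z, realsOver f ξ z = realsOver p.c.f ξ z := fun p hp ξ hξ z =>
    realsOver_congr (fun ζ hζ => hf p hp ζ (hζ.trans hξ)) z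
  refine ⟨f, ?_, ?_⟩
  · intro ξ
    have h1 := (hpd (ξ, ξ, 0)).1
    rw [hcl _ (hpG (ξ, ξ, 0)) ξ h1, hf _ (hpG (ξ, ξ, 0)) ξ h1]
    exact (pp (ξ, ξ, 0)).c.gen ξ h1
  · intro n
    have hcol : ∀ ξ η, ∃ k : ℕ, d (f ξ).2 η ∉ realsOver f ξ (f ξ).2 →
        (((f ξ).2, d (f ξ).2 η, n, k) : Entry) ∈ (pp (ξ, η, n)).q := by
      intro ξ η
      have h1 := (hpd (ξ, η, n)).1
      have h2 := (hpd (ξ, η, n)).2
      simp only at h1 h2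
      rw [← hro _ (hpG (ξ, η, n)) ξ h1, ← hf _ (hpG (ξ, η, n)) ξ h1] at h2
      rcases h2 with h2 | ⟨k, hk⟩
      · exact ⟨0, fun h => absurd h2 h⟩
      · exact ⟨k, fun _ => hk⟩
    choose col hcol using hcol
    refine ⟨col, ?_⟩
    intro ξ η ξ' η' h1 h2 h3 h4
    obtain ⟨t, _, ht1, ht2⟩ := hGdir _ (hpG (ξ, η, n)) _ (hpG (ξ', η', n))
    have e1 := ht1.2 (hcol ξ η h1)
    have e2 := ht2.2 (hcol ξ' η' h2)
    have := t.steep _ e1 _ e2 (by simp only [h3]) (by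
      intro h
      exact h4 (congrArg Prod.fst h))
    exact this

end Pool.Agent.Wetzel
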