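import Mathlib
import Pool.Agent.Wetzel.Limit

/-!
# Counting the selectors from a good class
-/

namespace Pool.Agent.Wetzel

open Set Cl Cardinal

variable {W : Type} [LinearOrder W] [hW : OmegaOne W] {𝓐 : Set (ℝ → ℝ)}

/-- Closing-off: a function assigning to each large `ξ` a finite list over the `ξ`-th clone is
constant on an uncountable set; in the form needed below. -/
lemma exists_uncountable_fiber (f : W → Node) (X : List U → Set W)
    (hX : ∃ b₀ : W, ∀ ξ, b₀ < ξ → ∃ l : List U, (∀ g ∈ l, g ∈ clone f ξ) ∧ ξ ∈ X l) :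
    ∃ l : List U, (∃ ξ, ∀ g ∈ l, g ∈ clone f ξ) ∧ ¬ (X l).Countable := by
  classical
  by_contra hcon
  push Not at hcon
  obtain ⟨b₀, hb₀⟩ := hX
  have hstep : ∀ ξ : W, ∃ b, ξ < b ∧ ∀ l : List U, (∀ g ∈ l, g ∈ clone f ξ) →
      ∀ ζ ∈ X l, ζ < b := by
    intro ξ
    have hc : (({ξ} : Set W) ∪ ⋃ l ∈ {l : List U | ∀ g ∈ l, g ∈ clone f ξ}, X l).Countable := by
      refine (Set.countable_singleton ξ).union ((countable_lists (clone_countable f ξ)).biUnion ?_)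
      intro l hl
      exact hcon l ⟨ξ, hl⟩
    obtain ⟨b, hb⟩ := exists_gt_all hc
    refine ⟨b, hb ξ (Or.inl rfl), fun l hl ζ hζ => hb ζ (Or.inr (Set.mem_biUnion hl hζ))⟩
  choose B hB1 hB2 using hstep
  let a : ℕ → W := fun n => Nat.rec (B b₀) (fun _ x => B x) n
  have ha : ∀ n, a (n + 1) = B (a n) := fun n => rfl
  have hmono : Monotone a := monotone_nat_of_le_succ (fun n => by rw [ha]; exact (hB1 _).le)
  obtain ⟨ξ, hξ1, hξ2⟩ := exists_lub (A := Set.range a) (Set.countable_range a)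
  have hlt : b₀ < ξ := (hB1 b₀).trans_le (hξ1 (a 0) ⟨0, rfl⟩)
  obtain ⟨l, hl, hlX⟩ := hb₀ ξ hlt
  have hlim : ∀ ζ < ξ, ∃ n, ζ < a n := by
    intro ζ hζ
    obtain ⟨_, ⟨n, rfl⟩, hn⟩ := hξ2 ζ hζ
    exact ⟨n, hn⟩
  have hln : ∃ n, ∀ g ∈ l, g ∈ clone f (a n) := by
    clear hlX
    induction l with
    | nil => exact ⟨0, by simp⟩
    | cons g l ih =>
      obtain ⟨n, hn⟩ := ih (fun x hx => hl x (List.mem_cons_of_mem _ hx))
      obtain ⟨m, hm⟩ := exists_mem_clone_of_lub f hmono hlim (hl g List.mem_cons_self)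
      refine ⟨max n m, ?_⟩
      intro x hx
      rcases List.mem_cons.1 hx with rfl | hx
      · exact clone_mono f (hmono (le_max_right _ _)) hm
      · exact clone_mono f (hmono (le_max_left _ _)) (hn x hx)
  obtain ⟨n, hn⟩ := hln
  have h1 := hB2 (a n) l hn ξ hlX
  rw [← ha] at h1
  exact absurd (hξ1 (a (n + 1)) ⟨n + 1, rfl⟩) (not_le.2 h1)

/-- All functions in all the clones. -/
def allFuns (f : W → Node) : Set U := ⋃ ξ, clone f ξ

lemma mk_allFuns (hcard : #W ≤ ℵ₁) (f : W → Node) : #(allFuns f) ≤ ℵ₁ := by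
  have h0 : ℵ₀ ≤ ℵ₁ := aleph0_le_aleph 1
  refine (mk_iUnion_le _).trans ?_
  refine (mul_le_mul' hcard (ciSup_le' (fun ξ => ?_))).trans (mul_eq_self h0).le
  exact (le_aleph0_iff_set_countable.2 (clone_countable f ξ)).trans h0

lemma mk_lists {A : Set U} (hA : #A ≤ ℵ₁) : #{l : List U | ∀ g ∈ l, g ∈ A} ≤ ℵ₁ := by
  have h0 : ℵ₀ ≤ ℵ₁ := aleph0_le_aleph 1
  have h1 : {l : List U | ∀ g ∈ l, g ∈ A} ⊆ Set.range (List.map (Subtype.val : A → U)) := by
    intro l hl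
    refine ⟨l.attach.map (fun x => ⟨x.1, hl x.1 x.2⟩), ?_⟩
    rw [List.map_map]
    exact List.attach_map_subtype_val l
  refine (mk_le_mk_of_subset h1).trans (mk_range_le.trans ((mk_list_le_max A).trans ?_))
  exact max_le h0 hA

/-- The main theorem on classes of functions. -/
theorem mk_selectors_le (hPFA : PFA) (hcard : #W = ℵ₁) (h𝓐 : GoodClass 𝓐) (D : ℝ → Set ℝ)
    (hD : ∀ x, #(D x) ≤ ℵ₁) : #{φ : ℝ → ℝ | φ ∈ 𝓐 ∧ ∀ x, φ x ∈ D x} ≤ ℵ₁ := by
  classical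
  -- enumerate the sets `D x`
  have hd : ∀ x, ∃ dx : W → ℝ, D x ⊆ Set.range dx := by
    intro x
    rcases Set.eq_empty_or_nonempty (D x) with h | h
    · exact ⟨fun _ => 0, by rw [h]; exact Set.empty_subset _⟩
    · have : Nonempty (D x) := h.to_subtype
      have hle : #(D x) ≤ #W := by rw [hcard]; exact hD x
      obtain ⟨e⟩ := hle
      have hs := Function.invFun_surjective e.injective
      refine ⟨fun w => (Function.invFun e w : D x), ?_⟩
      intro y hy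
      obtain ⟨w, hw⟩ := hs ⟨y, hy⟩
      exact ⟨w, congrArg Subtype.val hw⟩
  choose d hd using hd
  obtain ⟨f, hgen, hcol⟩ := exists_limit hPFA hcard.le h𝓐.measurable d
  -- basic properties of the generic reals
  have hunit : ∀ ξ, (f ξ).2 ∈ Set.Icc (0 : ℝ) 1 := by
    intro ξ
    obtain ⟨g, hg⟩ := clone_nonempty f ξ
    obtain ⟨l, _, hl⟩ := hgen ξ g hg
    exact Sh_subset_unit h𝓐.measurable _ hl
  have hlt : ∀ ζ ξ, ζ < ξ → (f ξ).2 ≠ (f ζ).2 := by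
    intro ζ ξ h heq
    obtain ⟨l, _, hl⟩ := hgen ξ _ (const_mem_clone f h)
    rw [Sh_cons] at hl
    apply (shrink_spec h𝓐.measurable (U.const (f ζ).2) (Sh 𝓐 l)).2.1
    rw [heq] at hl
    exact hl
  have hinj : Function.Injective (fun ξ => (f ξ).2) := by
    intro ξ ζ h
    rcases lt_trichotomy ξ ζ with h1 | h1 | h1
    · exact absurd h.symm (hlt _ _ h1)
    · exact h1
    · exact absurd h (hlt _ _ h1)
  -- the values at almost all the generic reals are captured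
  have hcapt : ∀ φ ∈ {φ : ℝ → ℝ | φ ∈ 𝓐 ∧ ∀ x, φ x ∈ D x},
      {ξ | φ (f ξ).2 ∉ realsOver f ξ (f ξ).2}.Countable := by
    rintro φ ⟨hφ, hφD⟩
    obtain ⟨n, hn⟩ := h𝓐.lipschitz φ hφ
    obtain ⟨col, hcol⟩ := hcol n
    have hη : ∀ ξ, ∃ η, d (f ξ).2 η = φ (f ξ).2 := fun ξ => hd _ (hφD _)
    choose η hη using hη
    rw [← Set.countable_coe_iff]
    refine (Function.Injective.countable (f := fun ξ :
      {ξ | φ (f ξ).2 ∉ realsOver f ξ (f ξ).2} => col ξ (η ξ)) ?_)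
    rintro ⟨ξ, hξ⟩ ⟨ξ', hξ'⟩ h
    by_contra hne
    have hne' : ξ ≠ ξ' := fun h' => hne (Subtype.ext h')
    have h1 := hcol ξ (η ξ) ξ' (η ξ') (by rw [hη]; exact hξ) (by rw [hη]; exact hξ') h
      (fun h' => hne' (hinj h'))
    rw [hη, hη] at h1
    exact absurd (hn _ (hunit ξ) _ (hunit ξ')) (not_le.2 h1)
  -- a code for each selector
  have hcode : ∀ φ ∈ {φ : ℝ → ℝ | φ ∈ 𝓐 ∧ ∀ x, φ x ∈ D x},
      ∃ (l : List U) (g : U), (∀ h ∈ g :: l, h ∈ allFuns f) ∧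
        ¬ {z ∈ (Sh 𝓐 (g :: l)).1 | g.1 [z] = φ z}.Countable := by
    intro φ hφ
    obtain ⟨b₀, hb₀⟩ := exists_gt_all (hcapt φ hφ)
    let X : List U → Set W := fun l' => {ξ | ∃ g l, l' = g :: l ∧
      (f ξ).2 ∈ (Sh 𝓐 (g :: l)).1 ∧ g.1 [(f ξ).2] = φ (f ξ).2}
    obtain ⟨l', ⟨ξ₀, hξ₀⟩, hl'⟩ := exists_uncountable_fiber f X ⟨b₀, by
      intro ξ hξ
      have h1 : φ (f ξ).2 ∈ realsOver f ξ (f ξ).2 := by
        by_contra hcon
        exact absurd (hb₀ ξ hcon) (not_lt.2 hξ.le)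
      obtain ⟨g, hg, hgz⟩ := h1
      obtain ⟨l, hl, hz⟩ := hgen ξ g hg
      refine ⟨g :: l, ?_, g, l, rfl, hz, hgz⟩
      intro h hh
      rcases List.mem_cons.1 hh with rfl | hh
      · exact hg
      · exact hl h hh⟩
    cases l' with
    | nil =>
      exfalso
      apply hl'
      have : X [] = ∅ := by
        rw [Set.eq_empty_iff_forall_notMem]
        rintro ξ ⟨g, l, h, _⟩
        exact absurd h (by simp)
      rw [this]
      exact Set.countable_empty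
    | cons g l =>
      refine ⟨l, g, fun h hh => Set.mem_iUnion.2 ⟨ξ₀, hξ₀ h hh⟩, ?_⟩
      intro hcount
      apply hl'
      refine Set.Countable.mono ?_ (hcount.preimage hinj)
      rintro ξ ⟨g', l', h, h1, h2⟩
      obtain ⟨rfl, rfl⟩ := List.cons.inj h
      exact ⟨h1, h2⟩
  -- the code determines the selector
  have hkey : ∀ φ ∈ 𝓐, ∀ ψ ∈ 𝓐, ∀ (l : List U) (g : U),
      ¬ {z ∈ (Sh 𝓐 (g :: l)).1 | g.1 [z] = φ z}.Countable →
      ¬ {z ∈ (Sh 𝓐 (g :: l)).1 | g.1 [z] = ψ z}.Countable → φ = ψ := by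
    intro φ hφ ψ hψ l g h1 h2
    have hdich := (shrink_spec h𝓐.measurable g (Sh 𝓐 l)).2.2
    rw [← Sh_cons] at hdich
    rcases hdich with ⟨χ, hχ, hχg⟩ | h
    · have key : ∀ θ ∈ 𝓐, ¬ {z ∈ (Sh 𝓐 (g :: l)).1 | g.1 [z] = θ z}.Countable → χ = θ := by
        intro θ hθ hcount
        by_contra hne
        apply hcount
        refine (h𝓐.agree χ hχ θ hθ hne).mono ?_
        rintro z ⟨hz, hgz⟩
        exact ⟨Sh_subset_unit h𝓐.measurable _ hz, by rw [← hχg z hz]; exact hgz⟩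
      rw [← key φ hφ h1, ← key ψ hψ h2]
    · exact absurd (h φ hφ) h1
  -- conclude
  have hcode' : ∀ φ : {φ : ℝ → ℝ | φ ∈ 𝓐 ∧ ∀ x, φ x ∈ D x},
      ∃ l' : {l : List U | ∀ g ∈ l, g ∈ allFuns f}, ∃ l g, l'.1 = g :: l ∧
        ¬ {z ∈ (Sh 𝓐 (g :: l)).1 | g.1 [z] = φ.1 z}.Countable := by
    rintro ⟨φ, hφ⟩
    obtain ⟨l, g, h1, h2⟩ := hcode φ hφ
    exact ⟨⟨g :: l, h1⟩, l, g, rfl, h2⟩
  choose code hcode' using hcode'
  have hcinj : Function.Injective code := by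
    intro φ ψ h
    obtain ⟨l, g, h1, h2⟩ := hcode' φ
    obtain ⟨l', g', h1', h2'⟩ := hcode' ψ
    rw [← h, h1] at h1'
    obtain ⟨rfl, rfl⟩ := List.cons.inj h1'
    exact Subtype.ext (hkey φ.1 φ.2.1 ψ.1 ψ.2.1 _ _ h2 h2')
  exact (mk_le_of_injective hcinj).trans (mk_lists (mk_allFuns hcard.le f))

end Pool.Agent.Wetzel
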