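import Mathlib
import Pool.Agent.Wetzel.Count
import Pool.Agent.Wetzel.Analytic

/-!
# Consequences of the Proper Forcing Axiom for families of entire functions
-/

namespace Pool.Agent.Wetzel

open Set Cardinal

/-- A type of order type `ω₁`. -/
abbrev W₁ : Type := (ℵ₁ : Cardinal.{0}).ord.ToType

lemma mk_W₁ : #W₁ = ℵ₁ := by
  rw [mk_toType, card_ord]

instance : OmegaOne W₁ where
  wf := inferInstance
  countable_Iio := by
    intro a
    have h : #(Set.Iio a) < ℵ₁ := mk_Iio_toType_ord_lt a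
    rw [← le_aleph0_iff_set_countable]
    rwa [← Order.lt_succ_iff, succ_aleph0]
  uncountable := by
    intro h
    have h1 : #W₁ ≤ ℵ₀ := mk_le_aleph0
    rw [mk_W₁] at h1
    exact absurd h1 (not_le.2 aleph0_lt_aleph_one)

/-- Under `PFA`, a family of entire functions taking at most `ℵ₁` values at each point has at
most `ℵ₁` members. -/
theorem mk_le_of_PFA (hPFA : PFA) {F : Set (ℂ → ℂ)} (hF : ∀ f ∈ F, Differentiable ℂ f)
    (hv : ∀ x : ℝ, #((fun f : ℂ → ℂ => f x) '' F) ≤ ℵ₁) : #F ≤ ℵ₁ := by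
  let D₁ : ℝ → Set ℝ := fun x => Complex.re '' ((fun f : ℂ → ℂ => f x) '' F)
  let D₂ : ℝ → Set ℝ := fun x => Complex.im '' ((fun f : ℂ → ℂ => f x) '' F)
  have h1 := mk_selectors_le (W := W₁) hPFA mk_W₁ goodClass_RA D₁
    (fun x => mk_image_le.trans (hv x))
  have h2 := mk_selectors_le (W := W₁) hPFA mk_W₁ goodClass_RA D₂
    (fun x => mk_image_le.trans (hv x))
  let e : F → {φ : ℝ → ℝ | φ ∈ RA ∧ ∀ x, φ x ∈ D₁ x} × {φ : ℝ → ℝ | φ ∈ RA ∧ ∀ x, φ x ∈ D₂ x} :=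
    fun f => (⟨rePart f.1, rePart_mem (hF _ f.2), fun x => ⟨f.1 x, ⟨f.1, f.2, rfl⟩, rfl⟩⟩,
      ⟨imPart f.1, imPart_mem (hF _ f.2), fun x => ⟨f.1 x, ⟨f.1, f.2, rfl⟩, rfl⟩⟩)
  have he : Function.Injective e := by
    intro f g h
    have h3 := congrArg (fun p => p.1.1) h
    have h4 := congrArg (fun p => p.2.1) h
    exact Subtype.ext (eq_of_parts (hF _ f.2) (hF _ g.2) h3 h4)
  refine (mk_le_of_injective he).trans ?_
  simp only [mk_prod, lift_id]
  exact (mul_le_mul' h1 h2).trans (mul_eq_self (aleph0_le_aleph 1)).le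

/-- Under `PFA` and `𝔠 = ℵ₂` there is no Wetzel family. -/
theorem no_wetzel (hPFA : PFA) (hc : 𝔠 = (ℵ_ 2 : Cardinal.{0})) : ¬ ∃ F, IsWetzel F := by
  rintro ⟨F, hF, hlt⟩
  have hcard : #F ≤ ℵ_ 2 := hc ▸ mk_entire_le hF
  have h12 : (ℵ_ 2 : Cardinal.{0}) = Order.succ ℵ₁ := by
    rw [succ_aleph]
    norm_num
  have h1 : #F ≤ ℵ₁ := by
    apply mk_le_of_PFA hPFA hF
    intro x
    have := (hlt x).trans_le hcard
    rw [h12] at this
    exact Order.lt_succ_iff.1 this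
  have h2 : #F < 𝔠 := by
    rw [hc, h12]
    exact Order.lt_succ_iff.2 h1
  obtain ⟨z, hz⟩ := exists_separating hF h2
  exact absurd (hlt z) (not_lt.2 hz)

/-- `PFA` and `𝔠 = ℵ₂` imply Martin's axiom. -/
theorem MA_of_PFA (hPFA : PFA) (hc : 𝔠 = (ℵ_ 2 : Cardinal.{0})) : MA := by
  intro P _ _ hP 𝒟 h𝒟 hdense
  refine hPFA P hP.isProper 𝒟 ?_ hdense
  have h12 : (ℵ_ 2 : Cardinal.{0}) = Order.succ ℵ₁ := by
    rw [succ_aleph]
    norm_num
  rw [hc, h12] at h𝒟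
  exact Order.lt_succ_iff.1 h𝒟

end Pool.Agent.Wetzel
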